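import Pool.Agent.J6H55.FM.Defs

/-!
# Project FM (families of projective varieties): the statements of the modules

Every `S_...` is to be proved as `theorem main : S_...` in a module of its own.
-/

set_option autoImplicit false
set_option linter.overlappingInstances false

namespace Pool.Agent.J6H55.FM

open FF Polynomial
open Pool.Agent.W602.GT (IsForm val coords)
open Pool.Agent.W603.LV (canDeg)
open Pool.Agent.W603.PV (pht)
open Pool.Agent.Q271.RC (Nonconst)
open Pool.Agent.Q103.SF (van)

/-- (FM-DEN) **A Zariski open subset of an irreducible variety is dense in the classical topology.**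

Proof. `V = V(p)`. Noether normalisation (Mathlib: `exists_finite_inj_algHom_of_fg` or
`Algebra.exists_integral_inj_algHom_of_fg`): `ℂ[t] = ℂ[t_1, …, t_d] → A = ℂ[β] / p` finite injective. The norm of
`r` (constant coefficient of the minimal polynomial of `r` over the normal domain `ℂ[t]`; or: `r` divides a
nonzero `R ∈ ℂ[t]`, the constant coefficient of an integral equation of minimal degree) gives `R ≠ 0` in `ℂ[t]`
with `R ∈ (r)`, so a point of `V` over `t` with `R(t) ≠ 0` is not on `r = 0`. Let `t0` be the image of `c0`,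
choose `v` with `R(t0 + s v) ≠ 0` for all small `s ≠ 0` (`R ≠ 0`; one-variable polynomial not zero). The fibre
over `t0` is finite; choose a polynomial `g` with `g(c0) = 0`, `g ≠ 0` at the other points of the fibre. Let `χ`
be the minimal polynomial of the class of `g` over `ℂ[t]` (`minpoly`, coefficients in `ℂ[t]`, which is
integrally closed); `χ(t0, 0) = 0` (the constant coefficient of `χ` is a multiple of `g` in `A`). By the
continuity of the roots (the product of the roots `T_i(s)` of the monic polynomial `χ(t0 + s v, T)` is up to sign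
the constant coefficient, which tends to zero, so the smallest root tends to zero) there is a root `T(s) → 0` for
`s → 0`. Since `ℂ[t][T] / χ → A` is injective and integral, there is a point `c(s)` of `V` over
`(t0 + s v, T(s))` (`Pool.Agent.J6H55.LE.ext_hom` with `Ω = ℂ`). The points `c(s)` are bounded (coordinates
integral over `ℂ[t]`), so there is a sequence `s_n → 0` with `c(s_n) → c'`; `c'` lies in `V` over `t0` and
`g(c') = 0`, so `c' = c0`. (Any other proof is as good.) -/
def S_den : Prop :=
  ∀ (β : Type) [Finite β] (p : Ideal (MvPolynomial β ℂ)) [p.IsPrime] (r : MvPolynomial β ℂ), r ∉ p →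
    ∀ c₀ : β → ℂ, (∀ H ∈ p, MvPolynomial.eval c₀ H = 0) →
      c₀ ∈ closure {c : β → ℂ | (∀ H ∈ p, MvPolynomial.eval c H = 0) ∧ MvPolynomial.eval c r ≠ 0}

/-- (FM-CHV) **Theorem of Chevalley**: a dense image contains an open subset.

Proof. In `A = ℂ[β ⊕ σ]` let `I` be the ideal generated by `S` and the image of `p` (`rename Sum.inl`); it has
finitely many minimal primes `q`. Those with `Ψ ∉ q`: each complex solution `(c, a)` lies over one of them, so
`c` lies in `V(q ∩ ℂ[β])`; if `q ∩ ℂ[β] ≠ p` for all of them (always `⊇ p`), choose `G_q` in `q ∩ ℂ[β]`, not in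
`p`, and the product `G ∉ p` contradicts the density. So `q ∩ ℂ[β] = p` for one `q` with `Ψ ∉ q`. Let
`K = Frac(A / q)`, `b : β → K`, `a : σ → K` the coordinates; choose a transcendence basis of `K` over the field of
the `b` among the `a`; the remaining coordinates and the inverse of `Ψ(b, a)` become integral over
`ℂ[b, 1/r', basis][1/h]`, `h` a nonzero polynomial in the basis with coefficients in `ℂ[b]`; `r = r'` times one
nonzero coefficient of `h`. For `c` in `V(p)` with `r(c) ≠ 0` choose values of the basis with `h ≠ 0` and extend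
the homomorphism to the integral extension (`Pool.Agent.J6H55.LE.ext_hom` with `Ω = ℂ`,
`Pool.Agent.Q103.RP.exists_hom`). Or use Mathlib: `PrimeSpectrum.isConstructible_comap_image` /
`RingHom.FinitePresentation`, generic lifting. -/
def S_chv : Prop :=
  ∀ (β σ : Type) [Finite β] [Finite σ] (S : Set (MvPolynomial (β ⊕ σ) ℂ)) (Ψ : MvPolynomial (β ⊕ σ) ℂ)
    (p : Ideal (MvPolynomial β ℂ)) [p.IsPrime],
    (∀ G : MvPolynomial β ℂ, G ∉ p → ∃ c : β → ℂ, (∀ H ∈ p, MvPolynomial.eval c H = 0) ∧
      MvPolynomial.eval c G ≠ 0 ∧ ∃ a : σ → ℂ, (∀ Φ ∈ S, MvPolynomial.eval (Sum.elim c a) Φ = 0) ∧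
        MvPolynomial.eval (Sum.elim c a) Ψ ≠ 0) →
    ∃ r : MvPolynomial β ℂ, r ∉ p ∧ ∀ c : β → ℂ, (∀ H ∈ p, MvPolynomial.eval c H = 0) →
      MvPolynomial.eval c r ≠ 0 → ∃ a : σ → ℂ, (∀ Φ ∈ S, MvPolynomial.eval (Sum.elim c a) Φ = 0) ∧
        MvPolynomial.eval (Sum.elim c a) Ψ ≠ 0

/-- (FM-GEN) **The fibres with a nonconstant map of bounded degree from an elliptic curve.**
Assume `S_chv` (`theorem main (h : S_chv) : S_gen`).

Proof. `σ` = the coefficients of `P i`, `Q i` (`Fin (M+1) × Fin (D+1)` twice), `a`, `b` and the four numbers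
`x, y, x', y'`. The condition `∀ x y, y² = x³ + a x + b → F(c, P(x) + Q(x) y) = 0` says: write
`F(c, P + Q Y) = A + B Y` modulo `Y² - (X³ + a X + b)`, `A, B` in `ℂ[X]` (division by the monic polynomial
`Y² - C h` in `R[X][Y]`, which commutes with homomorphisms: `Polynomial.map_modByMonic`); `A(x) + B(x) y = 0` for
`y` and `-y`, so `A = B = 0` (infinitely many `x` with `h(x) ≠ 0`). So it is equivalent to the vanishing of the
coefficients of `A` and `B`, polynomials in `c` and `σ` (do the division for the generic polynomials over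
`R = MvPolynomial (β ⊕ σ) ℂ` and specialise). `Ψ` = `(4 a³ + 27 b²)` times the difference in the last condition,
for each of the finitely many pairs `(i, j)`. If `{c ∈ V(p) : EllPar D FF c}` is dense, then the subset for one
of the pairs `(i, j)` is dense (otherwise multiply the `G`'s), and `S_chv` applies. -/
def S_gen : Prop :=
  ∀ (β : Type) [Finite β] (M D : ℕ) (FF : Set (MvPolynomial (β ⊕ Fin (M + 1)) ℂ))
    (p : Ideal (MvPolynomial β ℂ)) [p.IsPrime],
    (∀ G : MvPolynomial β ℂ, G ∉ p → ∃ c : β → ℂ, (∀ H ∈ p, MvPolynomial.eval c H = 0) ∧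
      MvPolynomial.eval c G ≠ 0 ∧ EllPar D FF c) →
    ∃ r : MvPolynomial β ℂ, r ∉ p ∧ ∀ c : β → ℂ, (∀ H ∈ p, MvPolynomial.eval c H = 0) →
      MvPolynomial.eval c r ≠ 0 → EllPar D FF c

/-- (FM-CLO) **Theorem of Brody for families**: the set of the fibres with entire curves is closed.

Proof. Follow `Pool.Agent.Q72.OK.brody` (`Pool/Agent/Q72/OK/Brody.lean`) and `Pool/Agent/Q239/SF/W5.lean`. Let
`c_n → c`, `f_n` a curve in the fibre over `c_n`, `S_n` (`S`) the set of the matrices `Phi u`, `u ≠ 0`,
`F(c_n, u) = 0` (`F(c, u) = 0`) for all `F ∈ FF`; `Phi` is in `Pool/Agent/Q72/OK/Phi.lean`. The map `Phi ∘ f_n` is not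
constant; after an affine change of the variable its derivative at `0` is larger than `2 (n + 1)`, so
`Pool.Agent.Q72.OK.rescale` gives `h_n : ball 0 (n+1) → S_n` with derivative `≤ 2` on the half ball and equal to `1`
at `0`. As in the proof of `brody` (no condition `q`: take `m`, `q` on `Empty`, `noq` of `W5.lean`) the limit along
an ultrafilter is `H : ℂ → S`, holomorphic, not constant: the only new point is `H z ∈ S`, from
`h_n z ∈ S_n`, `h_n z → H z`: choose unit vectors `u_n` with `h_n z = Phi u_n`; a limit point `u` of the `u_n` has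
`F(c, u) = 0` by continuity and `Phi u = H z`. Then `exists_lift` and `curve_of_entire` (see `const_of` in
`W5.lean`) give a curve without common zeros in the fibre over `c` (`curve_of_entire` is stated for the forms which
vanish at a generic point `x`; if it does not fit, divide by the common zeros with the same lemmas; the
polynomials `F` are homogeneous in `z`: `IsRel`). -/
def S_clo : Prop :=
  ∀ (β : Type) [Finite β] (M : ℕ) (FF : Set (MvPolynomial (β ⊕ Fin (M + 1)) ℂ)), (∀ F ∈ FF, IsRel F) →
    IsClosed {c : β → ℂ | ∃ f : Fin (M + 1) → ℂ → ℂ, FamCurve FF c f}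

/-- (FM-ELL) **Maps from elliptic curves give entire curves.**

Proof. Let `Ω` be an algebraically closed field with a transcendental element `τ` (the algebraic closure of
`RatFunc ℂ`), `η² = τ³ + a τ + b`, `E = ℂ(τ, η)`: `Pool.Agent.Q103.SF.ell_of_gen` (`IsFF`, `IsElliptic`). Let
`v i = P i (τ) + Q i (τ) η`. The kernel of `ℂ[X, Y] → E` is generated by `Y² - X³ - a X - b`; so a polynomial `G`
in `P + Q η` vanishes in `E` if and only if it vanishes at all points `(x, y)` of the curve
(one direction: write it as `A(τ) + B(τ) η`, `A = B = 0` because `η ∉ ℂ(τ)`, `τ` transcendental). So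
`v` is not zero and not constant (`Nonconst v`: if all ratios are algebraic over `ℂ`, so in `ℂ`, then
`v i = λ i * v j` and the two products in the last condition of `EllPar` are equal), and `v` lies in the
fibre. `Pool.Agent.Q103.SF.curve_of_ell Pool.Agent.Q95.SF.wei` for `x = v` (`OnVar ℂ v v` is trivial) gives `f`
with `EntireCurve v f`; for `F ∈ FF` the form `F(c, ·)` vanishes at `v`, so along `f`. -/
def S_ell : Prop :=
  ∀ (β : Type) [Finite β] (M D : ℕ) (FF : Set (MvPolynomial (β ⊕ Fin (M + 1)) ℂ)), (∀ F ∈ FF, IsRel F) →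
    ∀ c : β → ℂ, EllPar D FF c → ∃ f : Fin (M + 1) → ℂ → ℂ, FamCurve FF c f

/-- (FM-PAR) **Curves of genus at most one and bounded degree have parametrizations of bounded degree.**

Proof. `Pool.Agent.Q111.SF.cls` : `E = ℂ(t)` or `E = ℂ(x, y)`, `y² = x³ + a x + b`. (1) `E = ℂ(x, y)`. Let `j` with
`z j ≠ 0`, `u i = z i / z j`, of height (`hgt`) at most `A` (`hgt ≤ pht`, `Pool/Agent/W603/PV`). `E` has the automorphism
`y ↦ -y`, which preserves heights. `u i = p i (x) + q i (x) y` with rational functions `p i`, `q i`;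
`2 p i` is the sum of `u i` and its conjugate, so `hgt (p i) ≤ 2 A`; `2 q i y` is the difference, so
`hgt (q i) ≤ 2 A + hgt y`, `hgt y = 3`, `hgt x = 2` (`hgt_eq_finrank`), and the height over `E` of a rational
function of `x` of degree `m` is `2 m`. Multiply by the product of the denominators: `P i`, `Q i` of degree at most
`D = 10 (M + 2) (A + 2)` (any explicit or inexplicit bound depending only on `M` and `A`). (2) `E = ℂ(t)`: let
`u i = p i (t) / w (t)` with polynomials of degree at most `A (M + 1)`; take any elliptic curve, `a = 0`, `b = 1`,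
`P i = p i`, `Q i = 0`. In both cases `z` is not constant (`coords ℂ z = ⊤`), so some ratio
`(P i + Q i y) / (P j + Q j y)` takes two different values at points of the affine curve (where the
expressions are not both zero). The condition on `F ∈ FF` holds in `E` (`InFibre`, homogeneous in `z`:
`IsRel`), so at all points of the curve (write the left side as `A(x) + B(x) y` with polynomials, `A = B = 0`
because `y ∉ ℂ(x)`). -/
def S_par : Prop :=
  ∀ (M A : ℕ), ∃ D : ℕ, ∀ (β : Type) [Finite β] (FF : Set (MvPolynomial (β ⊕ Fin (M + 1)) ℂ)),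
    (∀ F ∈ FF, IsRel F) → ∀ (c : β → ℂ) (E : Type) [Field E] [Algebra ℂ E] [IsFF ℂ E]
    (z : Fin (M + 1) → E), z ≠ 0 → coords ℂ z = ⊤ → canDeg ℂ E ≤ 0 → pht ℂ z ≤ A → InFibre FF c z →
    EllPar D FF c

/-- (FM-ONE) **Families of curves**: relative dimension at most one.

Proof. Choose `j₀` with `z j₀ ≠ 0` and let `u j = z j / z j₀`, `F₀ = ℂ(b)`. There is `j₁` such that all `u j` are
algebraic over `F₀(u j₁)` (if the transcendence degree is zero, any `j₁`). Relations:
`Pool.Agent.Q103.RP.alg_poly` gives polynomials `f j` over `ℂ[b, u j₁]` with `evc (f j) (b, u j₁) ≠ 0`, root `u j`.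
Let `R` be `z j₀` times the (homogenised) product over `j` of one nonzero coefficient each of the `f j` (and in
the case of transcendence degree zero the same with relations over `ℂ[b]`). For a point `(c, f)` with
`R(c, f) ≠ 0` let `v j = f j / f j₀`: `v j` is a root of a nonzero polynomial over `ℂ[v j₁]` with coefficients
of bounded degree, of degree `d j` bounded. If `v j₁` were algebraic over `ℂ`, all `v j` would be constant,
against `Nonconst f`. Let `E₀ = ℂ(v) = coords ℂ f ⊆ E` (`IsFF`), `z₀` the point `f` (or `v`) over `E₀`: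
`coords ℂ z₀ = ⊤`, `van z₀ = van f`, `hgt (v j₁) = [E₀ : ℂ(v j₁)] ≤ ∏ d j` (`hgt_eq_finrank`, `E₀` is generated by
the `v j` over `ℂ(v j₁)`), `hgt (v j) ≤ A' * hgt (v j₁)` (`Pool.Agent.J6H55.QF.hgt_rel`), so `pht z₀ ≤ A''`. If
`canDeg ℂ E₀ ≤ 0`: `LowDeg`. Otherwise `pht f = r * pht z₀` and `r * canDeg ℂ E₀ ≤ canDeg ℂ E`, `r = [E : E₀]`, as
in the proof of `Pool.Agent.J6H55.CC.alg_all` (`Pool/Agent/J6H55/CC/Gen.lean`, `curve_map`), so
`pht f ≤ A'' * canDeg ℂ E`. -/
def S_one : Prop :=
  ∀ (β : Type) [Finite β] (M : ℕ) (L : Type) [Field L] [Algebra ℂ L] (b : β → L)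
    (z : Fin (M + 1) → L) (w : ℕ), IsGen b z → w ≤ 1 →
    Algebra.trdeg (IntermediateField.adjoin ℂ (Set.range b)) L = w → Bd b z

/-- (FM-NOE) **Noetherian induction.**

Proof. As `Pool.Agent.J6H55.CC.alg_all` (`Pool/Agent/J6H55/CC/Gen.lean`), in the polynomial ring
`MvPolynomial (β ⊕ Fin (M + 1)) ℂ`. Statement for an ideal `I`: there is `A` such that for all `E`, `c`, `f` with
`Nonconst f`, `InFibre FF c f` and `aeval (Sum.elim (cst E c) f) G = 0` for `G ∈ I`: the conclusion. By the minimal
primes reduce to a prime `p ⊇ I`. If all `z`-variables are in `p` nothing to prove. Otherwise let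
`(b, y)` be the coordinates in `Frac(ℂ[b, z] / p)`, `L = ℂ(b, ratios y)`, `y = s * z` with `z` over `L`
(as in `exists_generic` there, `exists_coords'`): `IsGen b z`, and for `G` with `IsRel G`: `rv b z G = 0 ↔ G ∈ p`.
If some `F ∈ FF` is not in `p`, use the induction hypothesis for `p + (F)`. Otherwise the hypothesis
gives `Bd b z`; with its `R ∉ p` use `p + (R)` for the points with `R = 0`. (`LowDeg A` is monotonic in `A`.) -/
def S_noe : Prop :=
  ∀ (β : Type) [Finite β] (M : ℕ) (FF : Set (MvPolynomial (β ⊕ Fin (M + 1)) ℂ)), (∀ F ∈ FF, IsRel F) →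
    (∀ (L : Type) [Field L] [Algebra ℂ L] (b : β → L) (z : Fin (M + 1) → L), IsGen b z →
      (∀ F ∈ FF, rv b z F = 0) → Bd b z) →
    ∃ A : ℕ, ∀ (E : Type) [Field E] [Algebra ℂ E] [IsFF ℂ E] (c : β → ℂ) (f : Fin (M + 1) → E),
      Nonconst f → InFibre FF c f → pht ℂ f ≤ A * canDeg ℂ E ∨ LowDeg A (van f)

/-- (FM-CST) **Extension of the base.** If the heights are bounded for the family over a finite cover of the
base, then for the family.

Proof. Choose `j₀` with `z j₀ ≠ 0`, `u j = z j / z j₀`. Let `R'`, `A` be given by the hypothesis,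
`ρ = rv (Sum.elim (ι ∘ b) θ) (ι ∘ u) R' ≠ 0` in `K` (`R'` is homogeneous in `z`). `K` is generated by `b`, `θ`, `u` and
algebraic over `L`. There is a polynomial `G` in `(b, u)`, `G(b, u) ≠ 0`, such that the `θ i` and `ρ⁻¹` are integral
over the localisation `T = ℂ[b, u][1/G]`, and the `θ i` even over `ℂ[b][1/G₁]`, `G₁` a factor of `G`
(`Pool.Agent.Q103.RP` `loc`, `exists_hom`, see the proof of `Pool.Agent.J6H55.LE.exists_spec` in
`Pool/Agent/J6H55/LE/Ext.lean`). Let `R` be `z j₀` times the homogenisation of `G` in `z`. A point `(c, f)`,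
`IsSpec b z c f`, over `E` with `R(c, f) ≠ 0` gives a homomorphism `φ : T → E`, `b ↦ c`, `u j ↦ f j / f j₀`, which
extends to `ψ : integral closure of T in K → AlgebraicClosure E` (`LE.ext_hom`). `ψ (θ i)` is integral over
`φ (ℂ[b][1/G₁]) = ℂ`, so it is in `ℂ`: `t i`. `(c, t; f)` is a point of the big family
(`IsSpec (Sum.elim (ι ∘ b) θ) (ι ∘ z) (Sum.elim c t) f`), and `R'` does not vanish there because
`ψ ρ * ψ (ρ⁻¹) = 1`. -/
def S_cst : Prop :=
  ∀ (β : Type) [Finite β] (M m : ℕ) (L K : Type) [Field L] [Algebra ℂ L] [Field K] [Algebra ℂ K]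
    (ι : L →ₐ[ℂ] K) (b : β → L) (z : Fin (M + 1) → L) (θ : Fin m → K), IsGen b z →
    (∀ i, IsAlgebraic (IntermediateField.adjoin ℂ (Set.range fun i => ι (b i))) (θ i)) →
    RelH (Sum.elim (fun i => ι (b i)) θ) (fun j => ι (z j)) → RelH b z

/-- (FM-DSC) **From the geometric generic fibre to a finite cover of the base.**

Proof. Let `Λ` be an algebraic closure of `L`, `Ω` the algebraic closure of `ℂ(b)` in `Λ`
(`algebraicClosure (adjoin ℂ (range b)) Λ`, `IsAlgClosed`), `u j = z j / z j₀`,
`E = IntermediateField.adjoin Ω (range u)` in `Λ`; `z' = u` over `E`. `E` is algebraic over `L`, so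
`trdeg Ω E = w`. The hypothesis gives the maps over `E`. Let `S ⊆ E` be the finite set of their coefficients and of
the coordinates of `B (d j)` preperiodic points for each `j`. `E` is generated over `ℂ` by `Ω` and `u`, so
there is a finite set `θ` in `Ω` with `S ⊆ K = ℂ(b, θ, u) ⊆ E` (`IntermediateField.exists_finset_of_mem_adjoin`;
`K` as a subfield of `Λ`). `ι : L → K` the inclusion. The maps and the points are over `K`; preperiodic over `E` and over
`K` is the same (`Pool.Agent.Q41.GT.ratP1_map` or the like in `Pool/Agent/Q103`). Let `F ⊆ K` contain `b` and let the maps be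
`DefinedOver F`. Then over `E` they are `DefinedOver F'`, `F' = Ω(F) ⊆ E` (extend the embedding `K → E` to the algebraic
closures), so `E` is algebraic over `F'`, `F'` is algebraic over (the image of) `F`, because `Ω` is algebraic over
`ℂ(b) ⊆ F`; so `K` is algebraic over `F`. -/
def S_dsc : Prop :=
  ∀ (B : ℕ → ℕ) (β : Type) [Finite β] (M : ℕ) (L : Type) [Field L] [Algebra ℂ L] (b : β → L)
    (z : Fin (M + 1) → L) (w : ℕ), IsGen b z →
    Algebra.trdeg (IntermediateField.adjoin ℂ (Set.range b)) L = w →
    (∀ (Ω E : Type) [Field Ω] [Field E] [Algebra ℂ Ω] [Algebra Ω E] [Algebra ℂ E] [IsScalarTower ℂ Ω E]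
      [IsAlgClosed Ω] (b' : β → Ω) (z' : Fin (M + 1) → E), z' ≠ 0 → coords Ω z' = ⊤ →
      (∀ G, IsRel G → rv b z G = 0 → rv (fun i => algebraMap Ω E (b' i)) z' G = 0) →
      Algebra.trdeg Ω E = w → CarriesOver B Ω E) →
    ∃ (K : Type) (_ : Field K) (_ : Algebra ℂ K) (ι : L →ₐ[ℂ] K) (m : ℕ) (θ : Fin m → K),
      (∀ i, IsAlgebraic (IntermediateField.adjoin ℂ (Set.range fun i => ι (b i))) (θ i)) ∧
      IsGen (Sum.elim (fun i => ι (b i)) θ) (fun j => ι (z j)) ∧
      RelCarries B (Sum.elim (fun i => ι (b i)) θ)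

end Pool.Agent.J6H55.FM
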