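import Pool.Agent.Q103.SF.Defs2
import Pool.Agent.Q103.VR.Def

/-!
# Families of projective varieties: definitions

A projective family over the affine space with the coordinates `β` is a closed subset `X` of
`A ^ β × P ^ M`, given by a set `FF` of polynomials over the complex numbers in the coordinates `b` of
`A ^ β` and the homogeneous coordinates `z` of `P ^ M`, homogeneous in `z`. `X_c` is the fibre over `c` (it may
be empty: so `X` may also be a family over a closed subset of `A ^ β`).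
-/

set_option autoImplicit false
set_option linter.overlappingInstances false

namespace Pool.Agent.J6H55.FM

open FF Polynomial
open Pool.Agent.W602.GT (IsForm val coords)
open Pool.Agent.W603.LV (canDeg)
open Pool.Agent.W603.PV (pht)
open Pool.Agent.Q271.RC (Nonconst)
open Pool.Agent.Q103.SF (van)
open Pool.Agent.Q103.EC (prePer)
open Pool.Agent.Q103.VR (DefinedOver)

/-- The polynomial `F` in the coordinates `b` of `A ^ β` and `z` of `P ^ M` is homogeneous in `z`. -/
def IsRel {β : Type} {M : ℕ} (F : MvPolynomial (β ⊕ Fin (M + 1)) ℂ) : Prop :=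
  ∃ e : ℕ, MvPolynomial.IsWeightedHomogeneous
    (Sum.elim (fun _ => 0) (fun _ => 1) : β ⊕ Fin (M + 1) → ℕ) F e

/-- The value of `F` at the point `(b, z)` over the field `E`. -/
noncomputable def rv {β : Type} {M : ℕ} {E : Type} [Field E] [Algebra ℂ E] (b : β → E)
    (z : Fin (M + 1) → E) (F : MvPolynomial (β ⊕ Fin (M + 1)) ℂ) : E :=
  MvPolynomial.aeval (Sum.elim b z) F

/-- The complex point `c` of the base as a point over `E`. -/
def cst {β : Type} (E : Type) [Field E] [Algebra ℂ E] (c : β → ℂ) : β → E := fun i => algebraMap ℂ E (c i)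

/-- The point `z` over the field `E` lies in the fibre `X_c`. -/
def InFibre {β : Type} {M : ℕ} (FF : Set (MvPolynomial (β ⊕ Fin (M + 1)) ℂ)) (c : β → ℂ) {E : Type}
    [Field E] [Algebra ℂ E] (z : Fin (M + 1) → E) : Prop :=
  ∀ F ∈ FF, rv (cst E c) z F = 0

/-- The ratios of the coordinates `z`. -/
def ratios {M : ℕ} {E : Type} [Field E] (z : Fin (M + 1) → E) : Set E :=
  {y | ∃ i j, z j ≠ 0 ∧ y = z i / z j}

/-- `L` is the function field and `(b, z)` the generic point of a closed subvariety `V` of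
`A ^ β × P ^ M`. -/
structure IsGen {β : Type} {M : ℕ} {L : Type} [Field L] [Algebra ℂ L] (b : β → L)
    (z : Fin (M + 1) → L) : Prop where
  ne : z ≠ 0
  gen : IntermediateField.adjoin ℂ (Set.range b ∪ ratios z) = ⊤

/-- The point `(c, f)`, `f` over the field `E`, lies in the closed subvariety with the generic point
`(b, z)`. -/
def IsSpec {β : Type} {M : ℕ} {L : Type} [Field L] [Algebra ℂ L] (b : β → L) (z : Fin (M + 1) → L)
    (c : β → ℂ) {E : Type} [Field E] [Algebra ℂ E] (f : Fin (M + 1) → E) : Prop :=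
  f ≠ 0 ∧ ∀ G, IsRel G → rv b z G = 0 → rv (cst E c) f G = 0

/-- A closed curve of genus at most one and of degree at most `A`. -/
def LowDeg {M : ℕ} (A : ℕ) (V : Set (MvPolynomial (Fin (M + 1)) ℂ)) : Prop :=
  ∃ (E : Type) (_ : Field E) (_ : Algebra ℂ E) (_ : IsFF ℂ E) (z : Fin (M + 1) → E), z ≠ 0 ∧
    coords ℂ z = ⊤ ∧ canDeg ℂ E ≤ 0 ∧ pht ℂ z ≤ A ∧ V = van z

/-- Off the closed subset `R = 0` the degree of the curves in the fibres is bounded by the genus. -/
def RelH {β : Type} {M : ℕ} {L : Type} [Field L] [Algebra ℂ L] (b : β → L) (z : Fin (M + 1) → L) :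
    Prop :=
  ∃ (R : MvPolynomial (β ⊕ Fin (M + 1)) ℂ) (A : ℕ), IsRel R ∧ rv b z R ≠ 0 ∧
    ∀ (E : Type) [Field E] [Algebra ℂ E] [IsFF ℂ E] (c : β → ℂ) (f : Fin (M + 1) → E),
      IsSpec b z c f → rv (cst E c) f R ≠ 0 → pht ℂ f ≤ A * max (canDeg ℂ E) 0

/-- The same up to curves of genus at most one, of bounded degree. -/
def Bd {β : Type} {M : ℕ} {L : Type} [Field L] [Algebra ℂ L] (b : β → L) (z : Fin (M + 1) → L) :
    Prop :=
  ∃ (R : MvPolynomial (β ⊕ Fin (M + 1)) ℂ) (A : ℕ), IsRel R ∧ rv b z R ≠ 0 ∧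
    ∀ (E : Type) [Field E] [Algebra ℂ E] [IsFF ℂ E] (c : β → ℂ) (f : Fin (M + 1) → E),
      IsSpec b z c f → rv (cst E c) f R ≠ 0 → Nonconst f →
        pht ℂ f ≤ A * canDeg ℂ E ∨ LowDeg A (van f)

/-- `E` is the function field of a variety `V` over the field `Ω`. There are finitely many rational maps
`p j / q j` of the projective line over `E`, of degrees `d j ≥ 2`, the `j`-th with at least `B (d j)`
preperiodic points in `P^1(E)`, whose joint moduli map `V ⇢ ∏ M_{d j}` is generically finite: if all the maps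
are conjugate over an algebraic closure of `E` to maps with coefficients algebraic over `F`, `Ω ⊆ F ⊆ E`, then
`E` is algebraic over `F`. -/
def CarriesOver (B : ℕ → ℕ) (Ω E : Type) [Field Ω] [Field E] [Algebra Ω E] : Prop :=
  ∃ (J : Type) (_ : Fintype J) (d : J → ℕ) (p q : J → E[X]), (∀ j, 2 ≤ d j) ∧
    (∀ j, IsCoprime (p j) (q j)) ∧ (∀ j, max (p j).natDegree (q j).natDegree = d j) ∧
    (∀ j, (B (d j) : ℕ∞) ≤ (prePer (d j) (p j) (q j)).encard) ∧
    ∀ F : IntermediateField Ω E, (∀ j, DefinedOver (d j) (p j) (q j) F) → Algebra.IsAlgebraic F E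

/-- `K` is the function field of a complex variety `V`, `b` a rational map from `V` to an affine space. There
are finitely many maps over `K` as above such that `b` and the joint moduli map together are generically
finite. -/
def RelCarries (B : ℕ → ℕ) {β : Type} {K : Type} [Field K] [Algebra ℂ K] (b : β → K) : Prop :=
  ∃ (J : Type) (_ : Fintype J) (d : J → ℕ) (p q : J → K[X]), (∀ j, 2 ≤ d j) ∧
    (∀ j, IsCoprime (p j) (q j)) ∧ (∀ j, max (p j).natDegree (q j).natDegree = d j) ∧
    (∀ j, (B (d j) : ℕ∞) ≤ (prePer (d j) (p j) (q j)).encard) ∧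
    ∀ F : IntermediateField ℂ K, (∀ j, DefinedOver (d j) (p j) (q j) F) → (∀ i, b i ∈ F) →
      Algebra.IsAlgebraic F K

/-- A nonconstant entire curve in the fibre `X_c`. -/
structure FamCurve {β : Type} {M : ℕ} (FF : Set (MvPolynomial (β ⊕ Fin (M + 1)) ℂ)) (c : β → ℂ)
    (f : Fin (M + 1) → ℂ → ℂ) : Prop where
  hol : ∀ i, Differentiable ℂ (f i)
  ne : ∀ t, ∃ i, f i t ≠ 0
  mem : ∀ F ∈ FF, ∀ t, MvPolynomial.eval (Sum.elim c fun i => f i t) F = 0
  nonconst : ∃ i j a b, f i a * f j b ≠ f j a * f i b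

/-- A nonconstant map from an elliptic curve `y ^ 2 = x ^ 3 + a x + b` to the fibre `X_c`, given by
polynomials `P i (x) + Q i (x) y` of degree at most `D`. -/
def EllPar {β : Type} {M : ℕ} (D : ℕ) (FF : Set (MvPolynomial (β ⊕ Fin (M + 1)) ℂ)) (c : β → ℂ) :
    Prop :=
  ∃ (a b : ℂ) (P Q : Fin (M + 1) → ℂ[X]), 4 * a ^ 3 + 27 * b ^ 2 ≠ 0 ∧
    (∀ i, (P i).natDegree ≤ D ∧ (Q i).natDegree ≤ D) ∧
    (∀ F ∈ FF, ∀ x y : ℂ, y ^ 2 = x ^ 3 + a * x + b →
      MvPolynomial.eval (Sum.elim c fun i => (P i).eval x + (Q i).eval x * y) F = 0) ∧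
    ∃ (i j : Fin (M + 1)) (x y x' y' : ℂ), y ^ 2 = x ^ 3 + a * x + b ∧
      y' ^ 2 = x' ^ 3 + a * x' + b ∧
      ((P i).eval x + (Q i).eval x * y) * ((P j).eval x' + (Q j).eval x' * y') ≠
        ((P j).eval x + (Q j).eval x * y) * ((P i).eval x' + (Q i).eval x' * y')

end Pool.Agent.J6H55.FM
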