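import Pool.Agent.J6H55.FM.Stm2
import Pool.Agent.J6H28.FM.Core
import Pool.Agent.Q103.EC.Nvc

/-!
# From the geometric generic fibre to a finite cover of the base
-/

set_option autoImplicit false
set_option linter.overlappingInstances false

namespace Pool.Agent.J6H55.FM

open Polynomial
open Pool.Agent.W602.GT (IsForm val coords)
open Pool.Agent.W277.UH (ratP1)
open Pool.Agent.Q103.EC (prePer ratP1_map ratP1_mulC prop_of_eq cp_map)
open Pool.Agent.Q103.VR (DefinedOver)
open Pool.Agent.Q68.GT (cp cp_conj cp_coprime cp_max mob_inv)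

section maps

/-- preperiodic points and extensions of the field -/
theorem prePer_of_map {K E : Type} [Field K] [Field E] (φ : K →+* E) {d : ℕ} {p q : K[X]}
    {y : Option K} (h : Option.map φ y ∈ prePer d (p.map φ) (q.map φ)) : y ∈ prePer d p q := by
  have hs : Function.Semiconj (Option.map φ) (ratP1 p q d) (ratP1 (p.map φ) (q.map φ) d) :=
    fun y => ratP1_map φ d p q y
  have hinj : Function.Injective (Option.map φ) := Option.map_injective φ.injective
  change (Set.range fun m : ℕ => (ratP1 p q d)^[m] y).Finite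
  have h1 : (Set.range fun m : ℕ => (ratP1 (p.map φ) (q.map φ) d)^[m] (Option.map φ y)).Finite := h
  refine Set.Finite.of_finite_image (f := Option.map φ) (h1.subset ?_) hinj.injOn
  rintro _ ⟨_, ⟨m, rfl⟩, rfl⟩
  exact ⟨m, ((hs.iterate_right m) y).symm⟩

/-- fields of definition and extensions of the field -/
theorem definedOver_map {k Ω K E : Type} [Field k] [CharZero k] [Field Ω] [Field K] [Field E]
    [Algebra k K] [Algebra Ω E] (φ : K →+* E) {d : ℕ} (hd : 1 ≤ d) {p q : K[X]}
    (hco : IsCoprime p q) (hmax : max p.natDegree q.natDegree = d) {F : IntermediateField k K}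
    {F' : IntermediateField Ω E} (hF : ∀ y ∈ F, φ y ∈ F') (h : DefinedOver d p q F) :
    DefinedOver d (p.map φ) (q.map φ) F' := by
  obtain ⟨p', q', a, b, c, e, h1, h2, h3, h4, h5⟩ := h
  let _ : Algebra K E := φ.toAlgebra
  let Φ : AlgebraicClosure K →ₐ[K] AlgebraicClosure E := IsAlgClosed.lift
  let Ψ : AlgebraicClosure K →+* AlgebraicClosure E := Φ.toRingHom
  have hΨ : ∀ y : K, Ψ (algebraMap K _ y) = algebraMap E _ (φ y) := fun y => by
    have h6 := Φ.commutes y
    rw [IsScalarTower.algebraMap_apply K E (AlgebraicClosure E)] at h6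
    exact h6
  have hcomp : Ψ.comp (algebraMap K (AlgebraicClosure K)) =
      (algebraMap E (AlgebraicClosure E)).comp φ := RingHom.ext hΨ
  let ψ : F →+* F' :=
    { toFun := fun y => ⟨φ y, hF y y.2⟩
      map_one' := Subtype.ext (map_one φ)
      map_mul' := fun a b => Subtype.ext (map_mul φ _ _)
      map_zero' := Subtype.ext (map_zero φ)
      map_add' := fun a b => Subtype.ext (map_add φ _ _) }
  have halg : ∀ y : AlgebraicClosure K, IsAlgebraic F y → IsAlgebraic F' (Ψ y) := by
    intro y hy
    refine hy.ringHom_of_comp_eq ψ Ψ ψ.injective (RingHom.ext fun a => ?_)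
    exact (hΨ a).symm
  have : CharZero K := charZero_of_injective_algebraMap (algebraMap k K).injective
  have : CharZero (AlgebraicClosure K) :=
    charZero_of_injective_algebraMap (algebraMap K (AlgebraicClosure K)).injective
  have hinf : Infinite (AlgebraicClosure K) := CharZero.infinite _
  refine ⟨p'.map Ψ, q'.map Ψ, Ψ a, Ψ b, Ψ c, Ψ e, ?_, ?_, ?_, ?_, ?_⟩
  · rw [← map_mul, ← map_mul, ← map_sub]
    exact (map_ne_zero Ψ).2 h1
  · exact (Polynomial.isCoprime_map Ψ).2 h2
  · rw [natDegree_map, natDegree_map]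
    exact h3
  · intro i
    rw [coeff_map, coeff_map]
    exact ⟨halg _ (h4 i).1, halg _ (h4 i).2⟩
  · set P := p.map (algebraMap K (AlgebraicClosure K)) with hP
    set Q := q.map (algebraMap K (AlgebraicClosure K)) with hQ
    have hPQ : IsCoprime P Q := hco.map (mapRingHom (algebraMap K (AlgebraicClosure K)))
    have hPQm : max P.natDegree Q.natDegree = d := by
      rw [hP, hQ, natDegree_map, natDegree_map, hmax]
    have hsurj : ∀ y, ∃ x, ratP1 (C a * X + C b) (C c * X + C e) 1 x = y := by
      intro y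
      have hdet : e * a - -b * -c ≠ 0 := by
        intro h0
        apply h1
        linear_combination h0
      have h6 := mob_inv (a := e) (b := -b) (c := -c) (e := a) hdet y
      rw [neg_neg, neg_neg] at h6
      exact ⟨_, h6⟩
    have hval : ∀ y, ratP1 (cp d P Q a b c e a b) (cp d P Q a b c e c e) d y =
        ratP1 p' q' d y := by
      intro y
      obtain ⟨x, rfl⟩ := hsurj y
      rw [← h5 x]
      exact (cp_conj hd hPQ hPQm h1 x).symm
    have hne : ∀ (f g : (AlgebraicClosure K)[X]), IsCoprime f g →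
        max f.natDegree g.natDegree = d → g ≠ 0 := by
      rintro f g hfg hm rfl
      rw [isCoprime_zero_right] at hfg
      have h0 := natDegree_eq_zero_of_isUnit hfg
      rw [h0, natDegree_zero] at hm
      simp at hm
      omega
    have hco1 := cp_coprime hd hPQ hPQm h1
    have hmax1 := cp_max hd hPQ hPQm h1
    obtain ⟨t, ht, hpt, hqt⟩ := prop_of_eq (d := d) hco1 h2 (hne _ _ hco1 hmax1) (hne _ _ h2 h3) hval
    have hdet' : Ψ a * Ψ e - Ψ b * Ψ c ≠ 0 := by
      rw [← map_mul, ← map_mul, ← map_sub]
      exact (map_ne_zero Ψ).2 h1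
    intro y
    have hPE : (p.map φ).map (algebraMap E (AlgebraicClosure E)) = P.map Ψ := by
      rw [hP, Polynomial.map_map, Polynomial.map_map, hcomp]
    have hQE : (q.map φ).map (algebraMap E (AlgebraicClosure E)) = Q.map Ψ := by
      rw [hQ, Polynomial.map_map, Polynomial.map_map, hcomp]
    have hPQΨ : IsCoprime (P.map Ψ) (Q.map Ψ) := (Polynomial.isCoprime_map Ψ).2 hPQ
    rw [hPE, hQE, cp_conj hd hPQΨ (by
      rw [natDegree_map (p := P) Ψ, natDegree_map (p := Q) Ψ, hPQm]) hdet',
      ← cp_map, ← cp_map, hpt, hqt, Polynomial.map_mul, Polynomial.map_mul, map_C,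
      ratP1_mulC d _ _ ((map_ne_zero Ψ).2 ht)]

end maps

section fields

/-- generation and injective maps -/
theorem mem_adjoin_of_map {k A D : Type} [Field k] [Field A] [Field D] [Algebra k A] [Algebra k D]
    (f : A →ₐ[k] D) {S : Set A} {a : A} (h : f a ∈ IntermediateField.adjoin k (f '' S)) :
    a ∈ IntermediateField.adjoin k S := by
  rw [← IntermediateField.adjoin_map] at h
  obtain ⟨a', h1, h2⟩ := h
  rw [← f.injective h2]
  exact h1

/-- every element of `Ω(S)` lies in `k(T, S)` for a finite subset `T` of `Ω` -/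
theorem fin_of_adjoin {k D : Type} [Field k] [Field D] [Algebra k D] (Ω : IntermediateField k D)
    (S : Set D) {x : D} (hx : x ∈ IntermediateField.adjoin Ω S) :
    ∃ T : Finset D, (T : Set D) ⊆ Ω ∧ x ∈ IntermediateField.adjoin k ((T : Set D) ∪ S) := by
  classical
  induction hx using IntermediateField.adjoin_induction with
  | mem x hx => exact ⟨∅, by simp, IntermediateField.subset_adjoin _ _ (Or.inr hx)⟩
  | algebraMap x =>
    refine ⟨{x.1}, ?_, IntermediateField.subset_adjoin _ _ (Or.inl (by
      rw [Finset.coe_singleton]; exact rfl))⟩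
    rw [Finset.coe_singleton, Set.singleton_subset_iff]
    exact x.2
  | add x y _ _ hx hy =>
    obtain ⟨T, h1, h2⟩ := hx
    obtain ⟨T', h3, h4⟩ := hy
    refine ⟨T ∪ T', by rw [Finset.coe_union]; exact Set.union_subset h1 h3, ?_⟩
    refine add_mem (IntermediateField.adjoin.mono _ _ _ ?_ h2)
      (IntermediateField.adjoin.mono _ _ _ ?_ h4)
    · rw [Finset.coe_union]
      exact Set.union_subset_union_left _ Set.subset_union_left
    · rw [Finset.coe_union]
      exact Set.union_subset_union_left _ Set.subset_union_right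
  | inv x _ hx =>
    obtain ⟨T, h1, h2⟩ := hx
    exact ⟨T, h1, inv_mem h2⟩
  | mul x y _ _ hx hy =>
    obtain ⟨T, h1, h2⟩ := hx
    obtain ⟨T', h3, h4⟩ := hy
    refine ⟨T ∪ T', by rw [Finset.coe_union]; exact Set.union_subset h1 h3, ?_⟩
    refine mul_mem (IntermediateField.adjoin.mono _ _ _ ?_ h2)
      (IntermediateField.adjoin.mono _ _ _ ?_ h4)
    · rw [Finset.coe_union]
      exact Set.union_subset_union_left _ Set.subset_union_left
    · rw [Finset.coe_union]
      exact Set.union_subset_union_left _ Set.subset_union_right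

/-- the same for finitely many elements -/
theorem fin_of_adjoin' {k D : Type} [Field k] [Field D] [Algebra k D] (Ω : IntermediateField k D)
    (S : Set D) {U : Set D} (hU : U.Finite) (h : ∀ x ∈ U, x ∈ IntermediateField.adjoin Ω S) :
    ∃ T : Finset D, (T : Set D) ⊆ Ω ∧
      ∀ x ∈ U, x ∈ IntermediateField.adjoin k ((T : Set D) ∪ S) := by
  classical
  choose! T h1 h2 using fun x (hx : x ∈ U) => fin_of_adjoin Ω S (h x hx)
  refine ⟨hU.toFinset.biUnion T, ?_, fun x hx => ?_⟩
  · intro y hy
    rw [Finset.mem_coe, Finset.mem_biUnion] at hy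
    obtain ⟨x, hx, hy⟩ := hy
    exact h1 x (hU.mem_toFinset.1 hx) hy
  · refine IntermediateField.adjoin.mono _ _ _ (Set.union_subset_union_left _ ?_) (h2 x hx)
    intro y hy
    rw [Finset.mem_coe, Finset.mem_biUnion]
    exact ⟨x, hU.mem_toFinset.2 hx, hy⟩

end fields

section main

theorem ratios_div {D : Type} [Field D] {M : ℕ} (z : Fin (M + 1) → D) (j : Fin (M + 1)) (hj : z j ≠ 0) :
    ratios (fun i => z i / z j) = ratios z := by
  ext y
  constructor
  · rintro ⟨i, l, hl, rfl⟩
    have hl' : z l ≠ 0 := fun h => hl (by simp only [h, zero_div])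
    exact ⟨i, l, hl', by simp only; field_simp⟩
  · rintro ⟨i, l, hl, rfl⟩
    exact ⟨i, l, div_ne_zero hl hj, by simp only; field_simp⟩

theorem ratios_map {D : Type} [Field D] {M : ℕ} {A : Type} [Field A] (f : A →+* D) (z : Fin (M + 1) → A) :
    ratios (fun i => f (z i)) = f '' ratios z := by
  ext y
  constructor
  · rintro ⟨i, l, hl, rfl⟩
    exact ⟨z i / z l, ⟨i, l, fun h => hl (by simp only [h, map_zero]), rfl⟩, map_div₀ f _ _⟩
  · rintro ⟨_, ⟨i, l, hl, rfl⟩, rfl⟩
    exact ⟨i, l, (_root_.map_ne_zero f).2 hl, (map_div₀ f _ _)⟩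

variable {L D : Type} [Field L] [Field D] [Algebra ℂ L] [Algebra ℂ D] [Algebra L D]
  [IsScalarTower ℂ L D] {M : ℕ}

theorem dsc_core [IsAlgClosed D] [Algebra.IsAlgebraic L D] (B : ℕ → ℕ) {β : Type} [Finite β]
    (b : β → L) (z : Fin (M + 1) → L) (w : ℕ) (hz : IsGen b z)
    (hw : Algebra.trdeg (IntermediateField.adjoin ℂ (Set.range b)) L = w)
    (H : ∀ (Ω E : Type) [Field Ω] [Field E] [Algebra ℂ Ω] [Algebra Ω E] [Algebra ℂ E]
      [IsScalarTower ℂ Ω E] [IsAlgClosed Ω] (b' : β → Ω) (z' : Fin (M + 1) → E),
      Algebra.IsAlgebraic (IntermediateField.adjoin ℂ (Set.range b')) Ω → z' ≠ 0 → coords Ω z' = ⊤ →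
      (∀ G, IsRel G → rv b z G = 0 → rv (fun i => algebraMap Ω E (b' i)) z' G = 0) →
      Algebra.trdeg Ω E = w → CarriesOver B Ω E) :
    ∃ (K : Type) (_ : Field K) (_ : Algebra ℂ K) (ι : L →ₐ[ℂ] K) (m : ℕ) (θ : Fin m → K),
      (∀ i, IsAlgebraic (IntermediateField.adjoin ℂ (Set.range fun i => ι (b i))) (θ i)) ∧
      IsGen (Sum.elim (fun i => ι (b i)) θ) (fun j => ι (z j)) ∧
      RelCarries B (Sum.elim (fun i => ι (b i)) θ) := by
  classical
  obtain ⟨j0, hj0⟩ : ∃ j, z j ≠ 0 := Function.ne_iff.1 hz.ne
  set k₁ := IntermediateField.adjoin ℂ (Set.range b) with hk₁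
  let g : L →ₐ[ℂ] D := IsScalarTower.toAlgHom ℂ L D
  have hg : ∀ x, g x = algebraMap L D x := fun x => rfl
  have i1 : IsScalarTower k₁ L D := inferInstance
  have i2 : IsScalarTower ℂ k₁ D := inferInstance
  let Ω : IntermediateField ℂ D := (algebraicClosure k₁ D).restrictScalars ℂ
  have hΩ : ∀ x : D, x ∈ Ω ↔ IsAlgebraic k₁ x := fun x => mem_algebraicClosure_iff
  have i3 : IsAlgClosed Ω := by
    have : IsAlgClosed (algebraicClosure k₁ D) := IsAlgClosure.isAlgClosed k₁
    exact this
  let E : IntermediateField Ω D :=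
    IntermediateField.adjoin Ω (ratios fun i => algebraMap L D (z i))
  have i4 : IsScalarTower ℂ Ω E := inferInstance
  have i5 : IsScalarTower ℂ Ω D := inferInstance
  have i6 : IsScalarTower ℂ E D := IsScalarTower.of_algebraMap_eq fun x => rfl
  have hbΩ : ∀ i, algebraMap L D (b i) ∈ Ω := fun i => by
    rw [hΩ]
    have : algebraMap L D (b i) = algebraMap k₁ D ⟨b i, IntermediateField.subset_adjoin _ _ ⟨i, rfl⟩⟩ :=
      rfl
    rw [this]
    exact isAlgebraic_algebraMap _
  let b' : β → Ω := fun i => ⟨algebraMap L D (b i), hbΩ i⟩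
  have hratE : ∀ y ∈ ratios (fun i => algebraMap L D (z i)), y ∈ E := fun y hy =>
    IntermediateField.subset_adjoin _ _ hy
  have hj0' : algebraMap L D (z j0) ≠ 0 := (_root_.map_ne_zero _).2 hj0
  let z' : Fin (M + 1) → E := fun i => ⟨algebraMap L D (z i) / algebraMap L D (z j0),
    hratE _ ⟨i, j0, hj0', rfl⟩⟩
  have hLE : ∀ x : L, algebraMap L D x ∈ E := by
    intro x
    have h1 : x ∈ IntermediateField.adjoin ℂ (Set.range b ∪ ratios z) := by
      rw [hz.gen]
      trivial
    have h2 : g x ∈ IntermediateField.adjoin ℂ (g '' (Set.range b ∪ ratios z)) := by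
      rw [← IntermediateField.adjoin_map]
      exact ⟨x, h1, rfl⟩
    have h3 : IntermediateField.adjoin ℂ (g '' (Set.range b ∪ ratios z)) ≤
        E.restrictScalars ℂ := by
      rw [IntermediateField.adjoin_le_iff, Set.image_union]
      refine Set.union_subset ?_ ?_
      · rintro _ ⟨_, ⟨i, rfl⟩, rfl⟩
        exact E.algebraMap_mem (b' i)
      · have h4 := ratios_map (algebraMap L D) z
        intro y hy
        refine hratE y ?_
        rw [h4]
        exact hy
    exact h3 h2
  have hb'alg : Algebra.IsAlgebraic (IntermediateField.adjoin ℂ (Set.range b')) Ω := by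
    refine ⟨fun x => ?_⟩
    have h1 : IsAlgebraic k₁ (x : D) := (hΩ _).1 x.2
    have hmem : ∀ a : k₁, ∃ y ∈ IntermediateField.adjoin ℂ (Set.range b'),
        (y : D) = algebraMap L D a := by
      intro a
      have h2 : g a ∈ IntermediateField.adjoin ℂ (g '' Set.range b) := by
        rw [← IntermediateField.adjoin_map]
        exact ⟨a, a.2, rfl⟩
      have h3 : g '' Set.range b = Ω.val '' Set.range b' := by
        ext y
        constructor
        · rintro ⟨_, ⟨i, rfl⟩, rfl⟩
          exact ⟨_, ⟨i, rfl⟩, rfl⟩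
        · rintro ⟨_, ⟨i, rfl⟩, rfl⟩
          exact ⟨_, ⟨i, rfl⟩, rfl⟩
      rw [h3, ← IntermediateField.adjoin_map] at h2
      obtain ⟨y, h4, h5⟩ := h2
      exact ⟨y, h4, h5⟩
    choose f0 hf0 hf0' using hmem
    let f : k₁ →+* IntermediateField.adjoin ℂ (Set.range b') :=
      { toFun := fun a => ⟨f0 a, hf0 a⟩
        map_one' := Subtype.ext (Subtype.ext (by
          show (f0 1 : D) = 1
          rw [hf0']; exact map_one _))
        map_zero' := Subtype.ext (Subtype.ext (by
          show (f0 0 : D) = 0
          rw [hf0']; exact map_zero _))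
        map_add' := fun a c => Subtype.ext (Subtype.ext (by
          show (f0 (a + c) : D) = f0 a + f0 c
          rw [hf0', hf0', hf0']; exact map_add _ _ _))
        map_mul' := fun a c => Subtype.ext (Subtype.ext (by
          show (f0 (a * c) : D) = f0 a * f0 c
          rw [hf0', hf0', hf0']; exact map_mul _ _ _)) }
    have h2 : IsAlgebraic (IntermediateField.adjoin ℂ (Set.range b')) (x : D) := by
      refine h1.ringHom_of_comp_eq f (RingHom.id D) f.injective (RingHom.ext fun a => ?_)
      exact hf0' a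
    exact (isAlgebraic_algebraMap_iff (A := D) (R := IntermediateField.adjoin ℂ (Set.range b'))
      (S := Ω) (algebraMap Ω D).injective).1 h2
  have hz' : z' ≠ 0 := by
    intro h
    have h1 := congrArg (fun y => ((y j0 : E) : D)) h
    have h2 : algebraMap L D (z j0) / algebraMap L D (z j0) = 0 := h1
    rw [div_self hj0'] at h2
    exact one_ne_zero h2
  have hcz' : coords Ω z' = ⊤ := by
    rw [eq_top_iff]
    rintro x -
    refine mem_adjoin_of_map E.val ?_
    have h1 : E.val '' {y | ∃ i j, z' j ≠ 0 ∧ y = z' i / z' j} =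
        ratios (fun i => algebraMap L D (z i)) := by
      have h2 := ratios_map E.val.toRingHom z'
      rw [← ratios_div _ j0 hj0']
      exact h2.symm
    rw [h1]
    exact x.2
  have hrel : ∀ G, IsRel G → rv b z G = 0 → rv (fun i => algebraMap Ω E (b' i)) z' G = 0 := by
    rintro G ⟨e, he⟩ hG
    refine E.val.toRingHom.injective ?_
    rw [map_zero]
    let ve : E →ₐ[ℂ] D := IsScalarTower.toAlgHom ℂ E D
    show ve (MvPolynomial.aeval (Sum.elim (fun i => algebraMap Ω E (b' i)) z') G) = 0
    rw [MvPolynomial.comp_aeval_apply]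
    have h1 : (fun s => ve (Sum.elim (fun i => algebraMap Ω E (b' i)) z' s)) =
        Sum.elim (fun i => algebraMap L D (b i))
          fun i => (algebraMap L D (z j0))⁻¹ * algebraMap L D (z i) := by
      funext s
      rcases s with i | i
      · rfl
      · show algebraMap L D (z i) / algebraMap L D (z j0) = _
        rw [div_eq_inv_mul]
        rfl
    rw [h1, Pool.Agent.J6H28.FM.scale _ _ _ he]
    have h2 : MvPolynomial.aeval (Sum.elim (fun i => algebraMap L D (b i))
        fun i => algebraMap L D (z i)) G = g (rv b z G) := by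
      unfold rv
      rw [MvPolynomial.comp_aeval_apply]
      congr 2
      funext s
      rcases s with i | i <;> rfl
    rw [h2, hG, map_zero, mul_zero]
  have htr : Algebra.trdeg Ω E = w := by
    have h1 : Algebra.trdeg k₁ L + Algebra.trdeg L D = Algebra.trdeg k₁ D := trdeg_add_eq k₁ L
    have h2 : Algebra.trdeg L D = 0 := trdeg_eq_zero
    have h3 : Algebra.trdeg k₁ (algebraicClosure k₁ D) + Algebra.trdeg (algebraicClosure k₁ D) D =
      Algebra.trdeg k₁ D := trdeg_add_eq k₁ (algebraicClosure k₁ D)
    have h4 : Algebra.trdeg k₁ (algebraicClosure k₁ D) = 0 := trdeg_eq_zero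
    have h5 : Algebra.trdeg Ω E + Algebra.trdeg E D = Algebra.trdeg Ω D := trdeg_add_eq Ω E
    have h6 : Algebra.trdeg E D = 0 := by
      rw [trdeg_eq_zero_iff]
      refine ⟨fun x => ?_⟩
      have h7 : IsAlgebraic L x := Algebra.IsAlgebraic.isAlgebraic x
      let f : L →+* E :=
        { toFun := fun a => ⟨algebraMap L D a, hLE a⟩
          map_one' := Subtype.ext (map_one _)
          map_zero' := Subtype.ext (map_zero _)
          map_add' := fun a c => Subtype.ext (map_add _ _ _)
          map_mul' := fun a c => Subtype.ext (map_mul _ _ _) }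
      exact h7.ringHom_of_comp_eq f (RingHom.id D) f.injective (RingHom.ext fun a => rfl)
    have h8 : Algebra.trdeg Ω D = Algebra.trdeg (algebraicClosure k₁ D) D := rfl
    rw [h6, add_zero, h8] at h5
    rw [h4, zero_add, ← h1, h2, add_zero, hw] at h3
    rw [h5, h3]
  obtain ⟨J, fJ, d, p, q, hd, hco, hmax, hB, hfin⟩ := H Ω E b' z' hb'alg hz' hcz' hrel htr
  choose A hAs hAc using fun j => Set.exists_subset_encard_eq (hB j)
  have hAf : ∀ j, (A j).Finite := fun j => by
    rw [← Set.encard_ne_top_iff, hAc]
    exact ENat.natCast_ne_top _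
  let U : Set D := ⋃ j, ((fun x : E => (x : D)) '' (Set.range (p j).coeff ∪ Set.range (q j).coeff ∪
    {x | some x ∈ A j}))
  have hrange : ∀ f : E[X], (Set.range f.coeff).Finite := fun f => by
    refine ((f.support.image f.coeff).finite_toSet.union (Set.finite_singleton 0)).subset ?_
    rintro _ ⟨i, rfl⟩
    by_cases h : f.coeff i = 0
    · exact Or.inr h
    · exact Or.inl (Finset.mem_coe.2 (Finset.mem_image_of_mem _ (mem_support_iff.2 h)))
  have hU : U.Finite := by
    refine Set.finite_iUnion fun j => Set.Finite.image _ ?_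
    refine ((hrange _).union (hrange _)).union ?_
    exact (hAf j).preimage (Option.some_injective _).injOn
  obtain ⟨T, hTΩ, hT⟩ := fin_of_adjoin' Ω (ratios fun i => algebraMap L D (z i)) hU (by
    rintro x ⟨_, ⟨j, rfl⟩, ⟨y, -, rfl⟩⟩
    exact y.2)
  let K : IntermediateField ℂ D := IntermediateField.adjoin ℂ
    (Set.range (fun i => algebraMap L D (b i)) ∪ (T : Set D) ∪ ratios fun i => algebraMap L D (z i))
  have hUK : ∀ x ∈ U, x ∈ K := fun x hx => IntermediateField.adjoin.mono _ _ _
    (Set.union_subset_union_left _ Set.subset_union_right) (hT x hx)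
  have hLK : ∀ x : L, algebraMap L D x ∈ K := by
    intro x
    have h1 : x ∈ IntermediateField.adjoin ℂ (Set.range b ∪ ratios z) := by
      rw [hz.gen]
      trivial
    have h2 : g x ∈ IntermediateField.adjoin ℂ (g '' (Set.range b ∪ ratios z)) := by
      rw [← IntermediateField.adjoin_map]
      exact ⟨x, h1, rfl⟩
    refine IntermediateField.adjoin.mono _ _ _ ?_ h2
    rw [Set.image_union]
    refine Set.union_subset ?_ ?_
    · rintro _ ⟨_, ⟨i, rfl⟩, rfl⟩
      exact Or.inl (Or.inl ⟨i, rfl⟩)
    · have h4 := ratios_map (algebraMap L D) z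
      intro y hy
      refine Or.inr ?_
      rw [h4]
      exact hy
  have hTK : ∀ x ∈ T, x ∈ K := fun x hx => IntermediateField.subset_adjoin _ _ (Or.inl (Or.inr hx))
  have hKE : K ≤ E.restrictScalars ℂ := by
    refine IntermediateField.adjoin_le_iff.2 (Set.union_subset (Set.union_subset ?_ ?_) ?_)
    · rintro _ ⟨i, rfl⟩
      exact hLE _
    · intro x hx
      exact E.algebraMap_mem (⟨x, hTΩ hx⟩ : Ω)
    · intro y hy
      exact hratE y hy
  let ι : L →ₐ[ℂ] K :=
    { toFun := fun a => ⟨algebraMap L D a, hLK a⟩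
      map_one' := Subtype.ext (map_one _)
      map_zero' := Subtype.ext (map_zero _)
      map_add' := fun a c => Subtype.ext (map_add _ _ _)
      map_mul' := fun a c => Subtype.ext (map_mul _ _ _)
      commutes' := fun a => Subtype.ext (IsScalarTower.algebraMap_apply ℂ L D a).symm }
  let φ : K →+* E :=
    { toFun := fun a => ⟨a.1, hKE a.2⟩
      map_one' := rfl
      map_zero' := rfl
      map_add' := fun a c => rfl
      map_mul' := fun a c => rfl }
  let θ : Fin T.card → K := fun i => ⟨(T.equivFin.symm i).1, hTK _ (T.equivFin.symm i).2⟩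
  have hθ : ∀ x ∈ T, ∃ i, (θ i : D) = x := by
    intro x hx
    refine ⟨T.equivFin ⟨x, hx⟩, ?_⟩
    show ((T.equivFin.symm (T.equivFin ⟨x, hx⟩)).1 : D) = x
    rw [Equiv.symm_apply_apply]
  -- `k₁` maps to the field generated by the `ι (b i)`
  have hk₁ι : ∀ a : k₁, ι a ∈ IntermediateField.adjoin ℂ (Set.range fun i => ι (b i)) := by
    intro a
    have h1 : ι a ∈ IntermediateField.adjoin ℂ (ι '' Set.range b) := by
      rw [← IntermediateField.adjoin_map]
      exact ⟨a, a.2, rfl⟩
    rwa [← Set.range_comp] at h1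
  refine ⟨K, inferInstance, inferInstance, ι, T.card, θ, ?_, ⟨?_, ?_⟩, J, fJ, d, ?_⟩
  · intro i
    have h1 : IsAlgebraic k₁ (θ i : D) := (hΩ _).1 (hTΩ (T.equivFin.symm i).2)
    let f : k₁ →+* IntermediateField.adjoin ℂ (Set.range fun i => ι (b i)) :=
      { toFun := fun a => ⟨ι a, hk₁ι a⟩
        map_one' := Subtype.ext (map_one ι)
        map_zero' := Subtype.ext (map_zero ι)
        map_add' := fun a c => Subtype.ext (map_add ι _ _)
        map_mul' := fun a c => Subtype.ext (map_mul ι _ _) }
    have h2 : IsAlgebraic (IntermediateField.adjoin ℂ (Set.range fun i => ι (b i))) (θ i : D) := by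
      refine h1.ringHom_of_comp_eq f (RingHom.id D) f.injective (RingHom.ext fun a => ?_)
      rfl
    exact (isAlgebraic_algebraMap_iff (A := D) (S := K) (algebraMap K D).injective).1 h2
  · intro h
    apply hj0
    have h1 := congrFun h j0
    exact (map_eq_zero ι).1 h1
  · rw [eq_top_iff]
    rintro x -
    refine mem_adjoin_of_map K.val ?_
    refine IntermediateField.adjoin.mono _ _ _ ?_ x.2
    rw [Set.image_union]
    refine Set.union_subset (Set.union_subset ?_ ?_) ?_
    · rintro _ ⟨i, rfl⟩
      exact Or.inl ⟨_, ⟨Sum.inl i, rfl⟩, rfl⟩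
    · intro x hx
      obtain ⟨i, hi⟩ := hθ x hx
      exact Or.inl ⟨_, ⟨Sum.inr i, rfl⟩, hi⟩
    · intro y hy
      have h4 := ratios_map K.val.toRingHom (fun j => ι (z j))
      refine Or.inr ?_
      rw [show K.val '' ratios (fun j => ι (z j)) = _ from h4.symm]
      exact hy
  · -- the maps
    have hlift : ∀ f : E[X], (∀ i, (f.coeff i : D) ∈ K) → ∃ f' : K[X], f'.map φ = f := by
      intro f hf
      have : f ∈ Polynomial.lifts φ := by
        rw [Polynomial.lifts_iff_coeff_lifts]
        intro i
        exact ⟨⟨(f.coeff i : D), hf i⟩, rfl⟩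
      obtain ⟨f', hf'⟩ := this
      exact ⟨f', hf'⟩
    choose p' hp' using fun j => hlift (p j) fun i => hUK _ (Set.mem_iUnion.2
      ⟨j, _, Or.inl (Or.inl ⟨i, rfl⟩), rfl⟩)
    choose q' hq' using fun j => hlift (q j) fun i => hUK _ (Set.mem_iUnion.2
      ⟨j, _, Or.inl (Or.inr ⟨i, rfl⟩), rfl⟩)
    have hco' : ∀ j, IsCoprime (p' j) (q' j) := fun j => by
      rw [← Polynomial.isCoprime_map φ, hp', hq']
      exact hco j
    have hmax' : ∀ j, max (p' j).natDegree (q' j).natDegree = d j := fun j => by
      rw [← natDegree_map φ, ← natDegree_map (p := q' j) φ, hp', hq', hmax]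
    refine ⟨p', q', hd, hco', hmax', fun j => ?_, fun F hF hbF => ?_⟩
    · have h1 : A j ⊆ Set.range (Option.map φ) := by
        intro y hy
        cases y with
        | none => exact ⟨none, rfl⟩
        | some x =>
          refine ⟨some ⟨(x : D), hUK _ (Set.mem_iUnion.2 ⟨j, _, Or.inr hy, rfl⟩)⟩, rfl⟩
      have h2 : Option.map φ '' (Option.map φ ⁻¹' A j) = A j := Set.image_preimage_eq_of_subset h1
      have h3 : (Option.map φ ⁻¹' A j).encard = (B (d j) : ℕ∞) := by
        rw [← hAc j, ← h2, (Option.map_injective φ.injective).encard_image, h2]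
      rw [← h3]
      refine Set.encard_le_encard fun y hy => ?_
      refine prePer_of_map φ ?_
      rw [hp', hq']
      exact hAs j hy
    · let F' : IntermediateField Ω E := IntermediateField.adjoin Ω (φ '' (F : Set K))
      have h1 : Algebra.IsAlgebraic F' E := by
        refine hfin F' fun j => ?_
        have h2 := definedOver_map (Ω := Ω) (F' := F') φ ((by norm_num : 1 ≤ 2).trans (hd j)) (hco' j)
          (hmax' j) (fun y hy => IntermediateField.subset_adjoin _ _ ⟨y, hy, rfl⟩) (hF j)
        rwa [hp', hq'] at h2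
      have hk₁F : ∀ a : k₁, ι a ∈ F := by
        intro a
        refine (IntermediateField.adjoin_le_iff.2 ?_) (hk₁ι a)
        rintro _ ⟨i, rfl⟩
        exact hbF (Sum.inl i)
      let _ : Algebra F E := (φ.comp (algebraMap F K)).toAlgebra
      let G := algebraicClosure F E
      have hG : ∀ y : E, y ∈ G ↔ IsAlgebraic F y := fun y => mem_algebraicClosure_iff
      have hΩG : ∀ y : Ω, algebraMap Ω E y ∈ G := by
        intro y
        rw [hG]
        have h2 : IsAlgebraic k₁ (y : D) := (hΩ _).1 y.2
        let f : k₁ →+* F :=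
          { toFun := fun a => ⟨ι a, hk₁F a⟩
            map_one' := Subtype.ext (map_one ι)
            map_zero' := Subtype.ext (map_zero ι)
            map_add' := fun a c => Subtype.ext (map_add ι _ _)
            map_mul' := fun a c => Subtype.ext (map_mul ι _ _) }
        have h3 : IsAlgebraic F (y : D) :=
          h2.ringHom_of_comp_eq f (RingHom.id D) f.injective (RingHom.ext fun a => rfl)
        exact IsAlgebraic.of_ringHom_of_comp_eq (RingHom.id F) (algebraMap E D) h3
          Function.surjective_id (algebraMap E D).injective (RingHom.ext fun a => rfl)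
      have hFG : ∀ y ∈ F', y ∈ G := by
        intro y hy
        induction hy using IntermediateField.adjoin_induction with
        | mem x hx =>
          obtain ⟨a, ha, rfl⟩ := hx
          rw [hG]
          exact isAlgebraic_algebraMap (⟨a, ha⟩ : F)
        | algebraMap x => exact hΩG x
        | add x y _ _ hx hy => exact add_mem hx hy
        | inv x _ hx => exact inv_mem hx
        | mul x y _ _ hx hy => exact mul_mem hx hy
      refine ⟨fun x => ?_⟩
      have h2 : IsAlgebraic F' (φ x) := h1.isAlgebraic _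
      let f : F' →+* G :=
        { toFun := fun a => ⟨a.1, hFG a.1 a.2⟩
          map_one' := rfl
          map_zero' := rfl
          map_add' := fun a c => rfl
          map_mul' := fun a c => rfl }
      have h3 : IsAlgebraic G (φ x) :=
        h2.ringHom_of_comp_eq f (RingHom.id E) f.injective (RingHom.ext fun a => rfl)
      have h4 : IsAlgebraic F (φ x) := h3.restrictScalars F
      exact IsAlgebraic.of_ringHom_of_comp_eq (RingHom.id F) φ h4 Function.surjective_id φ.injective
        (RingHom.ext fun a => rfl)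

end main

/-- `S_dsc2` holds. -/
theorem dsc2 : S_dsc2 := by
  intro B β _ M L _ _ b z w hz hw H
  exact dsc_core (D := AlgebraicClosure L) B b z w hz hw H

end Pool.Agent.J6H55.FM
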