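import Pool.Agent.J6H55.FM.Rel
import Pool.Agent.J6H55.CC.Main

/-!
# The fibres of families of projective varieties
-/

set_option autoImplicit false
set_option linter.overlappingInstances false

namespace Pool.Agent.J6H55.FM

open FF Polynomial
open Pool.Agent.W602.GT (IsForm val coords)
open Pool.Agent.Y216 (OnVar)
open Pool.Agent.Y221.BD (EntireCurve)
open Pool.Agent.W603.LV (canDeg)
open Pool.Agent.W603.PV (pht)
open Pool.Agent.TH466.QG (SubOf)
open Pool.Agent.Q271.RC (Nonconst)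
open Pool.Agent.Q103.EC (HypOff)
open Pool.Agent.Q103.SF (van vanOn lowCurves)
open Pool.Agent.J6H55.CC (Carries)

variable {β : Type} {M : ℕ}

theorem bind_wh' {σ τ : Type} {w : τ → ℕ} {n : σ → ℕ} {g : σ → MvPolynomial τ ℂ}
    (hg : ∀ i, MvPolynomial.IsWeightedHomogeneous w (g i) (n i)) {H : MvPolynomial σ ℂ} {m : ℕ}
    (hH : MvPolynomial.IsWeightedHomogeneous n H m) :
    MvPolynomial.IsWeightedHomogeneous w (MvPolynomial.bind₁ g H) m := by
  classical
  rw [H.as_sum, map_sum]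
  refine Submodule.sum_mem (MvPolynomial.weightedHomogeneousSubmodule ℂ w m) fun d hd => ?_
  rw [MvPolynomial.mem_weightedHomogeneousSubmodule, MvPolynomial.bind₁_monomial]
  have h2 := hH (MvPolynomial.mem_support_iff.1 hd)
  have h3 : MvPolynomial.IsWeightedHomogeneous w (∏ i ∈ d.support, g i ^ d i)
      (∑ i ∈ d.support, d i • n i) :=
    MvPolynomial.IsWeightedHomogeneous.prod _ _ _ fun i _ => (hg i).pow (d i)
  have h4 : (∑ i ∈ d.support, d i • n i) = m := by
    rw [← h2, Finsupp.weight_apply]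
    rfl
  rw [h4] at h3
  have h5 := (MvPolynomial.isWeightedHomogeneous_C w (MvPolynomial.coeff d H)).mul h3
  rwa [zero_add] at h5

/-- the equation of the fibre over `c` -/
noncomputable def fib (c : β → ℂ) (F : MvPolynomial (β ⊕ Fin (M + 1)) ℂ) :
    MvPolynomial (Fin (M + 1)) ℂ :=
  MvPolynomial.bind₁ (Sum.elim (fun i => MvPolynomial.C (c i)) MvPolynomial.X) F

theorem fib_form {c : β → ℂ} {F : MvPolynomial (β ⊕ Fin (M + 1)) ℂ} (hF : IsRel F) :
    IsForm (fib c F) := by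
  obtain ⟨e, he⟩ := hF
  refine ⟨e, bind_wh' (n := Sum.elim (fun _ => 0) (fun _ => 1)) ?_ he⟩
  rintro (i | j)
  · exact MvPolynomial.isWeightedHomogeneous_C _ _
  · exact MvPolynomial.isWeightedHomogeneous_X ℂ _ j

theorem val_fib {c : β → ℂ} {F : MvPolynomial (β ⊕ Fin (M + 1)) ℂ} {E : Type} [Field E]
    [Algebra ℂ E] (z : Fin (M + 1) → E) : val z (fib c F) = rv (cst E c) z F := by
  unfold Pool.Agent.W602.GT.val fib rv
  rw [MvPolynomial.aeval_bind₁]
  congr 2
  funext i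
  rcases i with i | j
  · change MvPolynomial.aeval z (MvPolynomial.C (c i)) = _
    rw [MvPolynomial.aeval_C]
    rfl
  · change MvPolynomial.aeval z (MvPolynomial.X j) = _
    rw [MvPolynomial.aeval_X]
    rfl

theorem eval_fib {c : β → ℂ} {F : MvPolynomial (β ⊕ Fin (M + 1)) ℂ} (z : Fin (M + 1) → ℂ) :
    MvPolynomial.eval z (fib c F) = MvPolynomial.eval (Sum.elim c z) F := by
  have h1 := val_fib (c := c) (F := F) z
  unfold Pool.Agent.W602.GT.val rv at h1
  have h2 : ∀ {τ : Type} (w : τ → ℂ) (G : MvPolynomial τ ℂ), MvPolynomial.aeval w G =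
      MvPolynomial.eval w G := fun w G =>
    congrArg (fun φ : MvPolynomial _ ℂ →+* ℂ => φ G) (MvPolynomial.coe_aeval_eq_eval w)
  rw [h2, h2] at h1
  exact h1

/-- All closed subvarieties of dimension at least two of the complex fibres carry maps with many
preperiodic points and generically finite joint moduli map. -/
def FibresCarry (B : ℕ → ℕ) (FF : Set (MvPolynomial (β ⊕ Fin (M + 1)) ℂ)) : Prop :=
  ∀ (c : β → ℂ) (E : Type) [Field E] [Algebra ℂ E] (w : ℕ) (z : Fin (M + 1) → E), z ≠ 0 →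
    coords ℂ z = ⊤ → InFibre FF c z → 2 ≤ w → Algebra.trdeg ℂ E = w → Carries B E

/-- All closed subvarieties of the fibre `X_c` have the property `P`. -/
def AllSub (FF : Set (MvPolynomial (β ⊕ Fin (M + 1)) ℂ)) (c : β → ℂ)
    (P : ∀ (K : Type) [Field K] [Algebra ℂ K], (Fin (M + 1) → K) → Prop) : Prop :=
  ∀ (K : Type) [Field K] [Algebra ℂ K] (x : Fin (M + 1) → K), x ≠ 0 → coords ℂ x = ⊤ →
    InFibre FF c x → P K x

theorem carries_mono {B B' : ℕ → ℕ} (hB : ∀ d, B' d ≤ B d) {E : Type} [Field E]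
    [Algebra ℂ E] (h : Carries B E) : Carries B' E := by
  obtain ⟨J, hJ, d, p, q, h1, h2, h3, h4, h5⟩ := h
  exact ⟨J, hJ, d, p, q, h1, h2, h3, fun j => le_trans (by exact_mod_cast hB (d j)) (h4 j), h5⟩

theorem RelCarries.mono {B B' : ℕ → ℕ} (hB : ∀ d, B' d ≤ B d) {γ : Type} {K : Type} [Field K]
    [Algebra ℂ K] {b : γ → K} (h : RelCarries B b) : RelCarries B' b := by
  obtain ⟨J, hJ, d, p, q, h1, h2, h3, h4, h5⟩ := h
  exact ⟨J, hJ, d, p, q, h1, h2, h3, fun j => le_trans (by exact_mod_cast hB (d j)) (h4 j), h5⟩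

section

variable {FF : Set (MvPolynomial (β ⊕ Fin (M + 1)) ℂ)} {B : ℕ → ℕ}

/-- the subvarieties of the fibres -/
theorem carries_fibre (H : FibresCarry B FF) {c : β → ℂ} {E : Type} [Field E] [Algebra ℂ E]
    {w : ℕ} {z : Fin (M + 1) → E} (hz : z ≠ 0) (hgen : coords ℂ z = ⊤) (hin : InFibre FF c z)
    (hw : 2 ≤ w) (htr : Algebra.trdeg ℂ E = w) : Carries B E :=
  H c E w z hz hgen hin hw htr

theorem inFibre_sub (hFF : ∀ F ∈ FF, IsRel F) {c : β → ℂ} {K : Type} [Field K] [Algebra ℂ K]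
    {x : Fin (M + 1) → K} (hx : InFibre FF c x) {E : Type} [Field E] [Algebra ℂ E]
    {z : Fin (M + 1) → E} (hz : ∀ G : MvPolynomial (Fin (M + 1)) ℂ, IsForm G → val x G = 0 →
      val z G = 0) : InFibre FF c z := by
  intro F hF
  rw [← val_fib]
  refine hz _ (fib_form (hFF F hF)) ?_
  rw [val_fib]
  exact hx F hF

/-- **The closure of an entire curve in a fibre is a curve of genus `≤ 1`.** -/
theorem low_of_curve (hB : ∀ (K : Type) [Field K] [Algebra ℂ K] (M : ℕ)
    (x : Fin (M + 1) → K), x ≠ 0 → coords ℂ x = ⊤ → Carries B K → ∃ R, HypOff x R)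
    (hFF : ∀ F ∈ FF, IsRel F) (H : FibresCarry B FF) {c : β → ℂ} {f : Fin (M + 1) → ℂ → ℂ}
    (hf : FamCurve FF c f) :
    ∃ (L : Type) (_ : Field L) (_ : Algebra ℂ L) (_ : IsFF ℂ L) (u : Fin (M + 1) → L), u ≠ 0 ∧
      coords ℂ u = ⊤ ∧ canDeg ℂ L ≤ 0 ∧ InFibre FF c u ∧ EntireCurve u f := by
  classical
  let K₀ := FractionRing (MvPolynomial (Fin (M + 1)) ℂ)
  let x₀ : Fin (M + 1) → K₀ := fun i =>
    algebraMap (MvPolynomial (Fin (M + 1)) ℂ) K₀ (MvPolynomial.X i)
  have hval : ∀ G : MvPolynomial (Fin (M + 1)) ℂ, val x₀ G = algebraMap _ K₀ G := by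
    intro G
    have h1 : (MvPolynomial.aeval x₀ : MvPolynomial (Fin (M + 1)) ℂ →ₐ[ℂ] K₀) =
        Algebra.algHom ℂ (MvPolynomial (Fin (M + 1)) ℂ) K₀ := by
      apply MvPolynomial.algHom_ext
      intro i
      rw [MvPolynomial.aeval_X]
      rfl
    unfold Pool.Agent.W602.GT.val
    rw [h1]
    rfl
  have hx₀ : ∀ G : MvPolynomial (Fin (M + 1)) ℂ, val x₀ G = 0 → G = 0 := by
    intro G h
    rw [hval] at h
    exact (map_eq_zero_iff _ (IsFractionRing.injective (MvPolynomial (Fin (M + 1)) ℂ) K₀)).1 h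
  have hent : EntireCurve x₀ f := ⟨hf.hol, hf.ne, fun G _ h t => by
    rw [hx₀ G h, map_zero], hf.nonconst⟩
  have hmem : ∀ (E : Type) [Field E] [Algebra ℂ E] (v : Fin (M + 1) → E),
      (∀ G : MvPolynomial (Fin (M + 1)) ℂ, IsForm G →
        ((∀ t, MvPolynomial.eval (fun i => f i t) G = 0) → val v G = 0)) → InFibre FF c v := by
    intro E _ _ v hv F hF
    rw [← val_fib]
    refine hv _ (fib_form (hFF F hF)) fun t => ?_
    rw [eval_fib]
    exact hf.mem F hF t
  have hlow := CC.entire_low hent fun E _ _ t v hv hvf h2 ht => by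
    obtain ⟨R, hR⟩ := hB E M v hv.ne hv.gen (carries_fibre H hv.ne hv.gen
      (hmem E v fun G hG h => (hvf G hG).2 h) h2 ht)
    have h1 := hR.curve f ⟨hf.hol, hf.ne, fun G hG hGv => (hvf G hG).1 hGv, hf.nonconst⟩
    exact hR.ne ((hvf R hR.form).2 h1)
  obtain ⟨L, i1, i2, i3, u, hu, hgen, hc, hV⟩ := hlow
  have hiff : ∀ G : MvPolynomial (Fin (M + 1)) ℂ, IsForm G →
      ((∀ t, MvPolynomial.eval (fun i => f i t) G = 0) ↔ val u G = 0) := by
    intro G hG
    have h1 := Set.ext_iff.1 hV G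
    constructor
    · intro h
      exact (h1.1 ⟨hG, fun t _ => h t⟩).2
    · intro h t
      exact (h1.2 ⟨hG, h⟩).2 t (Set.mem_univ _)
  have hu0 : u ≠ 0 := by
    obtain ⟨j, hj⟩ := hu.1
    exact fun h => hj (congrFun h j)
  exact ⟨L, i1, i2, i3, u, hu0, hgen, hc, hmem L u fun G hG h => (hiff G hG).1 h,
    hf.hol, hf.ne, fun G hG h => (hiff G hG).2 h, hf.nonconst⟩

/-- entire curves in subvarieties of a fibre -/
theorem famCurve_of (hFF : ∀ F ∈ FF, IsRel F) {c : β → ℂ} {K : Type} [Field K] [Algebra ℂ K]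
    {x : Fin (M + 1) → K} (hx : InFibre FF c x) {f : Fin (M + 1) → ℂ → ℂ} (hf : EntireCurve x f) :
    FamCurve FF c f := by
  refine ⟨hf.hol, hf.ne, fun F hF t => ?_, hf.nonconst⟩
  rw [← eval_fib]
  refine hf.mem _ (fib_form (hFF F hF)) ?_ t
  rw [val_fib]
  exact hx F hF

end

end Pool.Agent.J6H55.FM
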