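import Pool.Agent.J6H55.FM.Defs

/-!
# Project FM: two more statements
-/

set_option autoImplicit false
set_option linter.overlappingInstances false

namespace Pool.Agent.J6H55.FM

open FF Polynomial
open Pool.Agent.W602.GT (IsForm val coords)


/-- (FM-DSC2) As `S_dsc`, but the hypothesis is only needed for the fields `Ω` which are algebraic over
`ℂ(b')` (this is the case in the proof of `S_dsc`). -/
def S_dsc2 : Prop :=
  ∀ (B : ℕ → ℕ) (β : Type) [Finite β] (M : ℕ) (L : Type) [Field L] [Algebra ℂ L] (b : β → L)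
    (z : Fin (M + 1) → L) (w : ℕ), IsGen b z →
    Algebra.trdeg (IntermediateField.adjoin ℂ (Set.range b)) L = w →
    (∀ (Ω E : Type) [Field Ω] [Field E] [Algebra ℂ Ω] [Algebra Ω E] [Algebra ℂ E] [IsScalarTower ℂ Ω E]
      [IsAlgClosed Ω] (b' : β → Ω) (z' : Fin (M + 1) → E),
      Algebra.IsAlgebraic (IntermediateField.adjoin ℂ (Set.range b')) Ω → z' ≠ 0 → coords Ω z' = ⊤ →
      (∀ G, IsRel G → rv b z G = 0 → rv (fun i => algebraMap Ω E (b' i)) z' G = 0) →
      Algebra.trdeg Ω E = w → CarriesOver B Ω E) →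
    ∃ (K : Type) (_ : Field K) (_ : Algebra ℂ K) (ι : L →ₐ[ℂ] K) (m : ℕ) (θ : Fin m → K),
      (∀ i, IsAlgebraic (IntermediateField.adjoin ℂ (Set.range fun i => ι (b i))) (θ i)) ∧
      IsGen (Sum.elim (fun i => ι (b i)) θ) (fun j => ι (z j)) ∧
      RelCarries B (Sum.elim (fun i => ι (b i)) θ)

end Pool.Agent.J6H55.FM
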