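import Pool.Agent.J6H55.FM.Fib
import Pool.Agent.J6H55.FM.Stm2

/-!
# From the complex fibres to the geometric fibres

If all complex fibres of a projective family lie in the class, then so do all geometric fibres `X_b`, `b` over an
algebraically closed field `Ω` which is algebraic over `ℂ(b)`: the family is defined over a countable field `k`, and
there is an isomorphism of `Ω` with the complex numbers over `k`.
-/

set_option autoImplicit false
set_option linter.overlappingInstances false

namespace Pool.Agent.J6H55.FM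

open FF Polynomial Cardinal
open Pool.Agent.W602.GT (IsForm val coords)
open Pool.Agent.Q103.EC (prePer)
open Pool.Agent.Q103.VR (DefinedOver)
open Pool.Agent.J6H55.CC (Carries)

/-- isomorphisms of algebraically closed fields over a countable field -/
theorem exists_iso {R K L : Type} [Field R] [Field K] [Field L] [Algebra R K] [Algebra R L]
    [IsAlgClosed K] [IsAlgClosed L] (hR : #R ≤ ℵ₀) (hK : ℵ₀ < #K) (hKL : #K = #L) :
    ∃ τ : K ≃+* L, ∀ r : R, τ (algebraMap R K r) = algebraMap R L r := by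
  obtain ⟨s, hs⟩ := exists_isTranscendenceBasis R K
  obtain ⟨t, ht⟩ := exists_isTranscendenceBasis R L
  have h1 : #s = #t := by
    rw [← IsAlgClosed.cardinal_eq_cardinal_transcendence_basis_of_aleph0_lt' _ hs hR hK,
      ← IsAlgClosed.cardinal_eq_cardinal_transcendence_basis_of_aleph0_lt' _ ht hR (hKL ▸ hK), hKL]
  obtain ⟨e⟩ := Cardinal.eq.1 h1
  let _ := IsAlgClosed.isAlgClosure_of_transcendence_basis (R := R) (K := K) _ hs
  let _ := IsAlgClosed.isAlgClosure_of_transcendence_basis (R := R) (K := L) _ ht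
  let e' : Algebra.adjoin R (Set.range ((↑) : s → K)) ≃ₐ[R]
      Algebra.adjoin R (Set.range ((↑) : t → L)) :=
    hs.1.aevalEquiv.symm.trans ((MvPolynomial.renameEquiv R e).trans ht.1.aevalEquiv)
  refine ⟨IsAlgClosure.equivOfEquiv K L e'.toRingEquiv, fun r => ?_⟩
  have h2 : algebraMap R K r = algebraMap (Algebra.adjoin R (Set.range ((↑) : s → K))) K
      (algebraMap R _ r) := IsScalarTower.algebraMap_apply _ _ _ _
  rw [h2, IsAlgClosure.equivOfEquiv_algebraMap]
  have h3 : e'.toRingEquiv (algebraMap R _ r) = algebraMap R _ r := e'.commutes r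
  rw [h3]
  exact (IsScalarTower.algebraMap_apply _ _ _ _).symm

theorem card_complex : #ℂ = Cardinal.continuum := Cardinal.mk_complex

theorem card_adjoin {β Ω : Type} [Finite β] [Field Ω] [Algebra ℂ Ω] (b : β → Ω) :
    #(IntermediateField.adjoin ℂ (Set.range b)) ≤ #ℂ := by
  have h1 : #(Subfield.closure (Set.range (algebraMap ℂ Ω) ∪ Set.range b)) ≤
      max #(Set.range (algebraMap ℂ Ω) ∪ Set.range b : Set Ω) ℵ₀ :=
    Subfield.cardinalMk_closure_le_max _
  refine le_trans h1 (max_le ?_ ?_)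
  · refine (Cardinal.mk_union_le _ _).trans ?_
    refine (add_le_add Cardinal.mk_range_le Cardinal.mk_range_le).trans ?_
    rw [card_complex]
    refine (add_le_add le_rfl ((Cardinal.mk_le_aleph0 (α := β)).trans
      Cardinal.aleph0_le_continuum)).trans (le_of_eq ?_)
    exact Cardinal.continuum_add_self
  · rw [card_complex]
    exact Cardinal.aleph0_le_continuum

theorem card_eq {β Ω : Type} [Finite β] [Field Ω] [Algebra ℂ Ω] (b : β → Ω)
    (h : Algebra.IsAlgebraic (IntermediateField.adjoin ℂ (Set.range b)) Ω) : #Ω = #ℂ := by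
  refine le_antisymm ?_ (Cardinal.mk_le_of_injective (algebraMap ℂ Ω).injective)
  refine (Algebra.IsAlgebraic.cardinalMk_le_max (IntermediateField.adjoin ℂ (Set.range b)) Ω).trans ?_
  refine max_le (card_adjoin b) ?_
  rw [card_complex]
  exact Cardinal.aleph0_le_continuum

/-- algebraic elements, for two fields with the same elements -/
theorem isAlgebraic_iff_of_eq {E A : Type} [Field E] [Field A] [Algebra E A] {Ω Ω' : Type} [Field Ω]
    [Field Ω'] [Algebra Ω E] [Algebra Ω' E] (F : IntermediateField Ω E) (F' : IntermediateField Ω' E)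
    (h : ∀ y, y ∈ F ↔ y ∈ F') (y : A) : IsAlgebraic F y ↔ IsAlgebraic F' y := by
  let φ : F →+* F' :=
    { toFun := fun a => ⟨a, (h a).1 a.2⟩
      map_one' := rfl
      map_mul' := fun a b => rfl
      map_zero' := rfl
      map_add' := fun a b => rfl }
  have hφ : Function.Bijective φ := by
    refine ⟨fun a b hab => ?_, fun a => ⟨⟨a, (h a).2 a.2⟩, rfl⟩⟩
    have h1 := congrArg (fun a : F' => (a : E)) hab
    exact Subtype.ext h1
  constructor
  · intro hy
    exact hy.ringHom_of_comp_eq φ (RingHom.id A) hφ.1 (by ext a; rfl)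
  · intro hy
    exact IsAlgebraic.of_ringHom_of_comp_eq (R := F) (S := F') φ (RingHom.id A) hy hφ.2
      Function.injective_id (by ext a; rfl)

/-- transport of structure -/
theorem transport {Ω E : Type} [Field Ω] [Field E] [Algebra Ω E] (τ : Ω ≃+* ℂ) {B : ℕ → ℕ}
    {β : Type} {M : ℕ} {FF : Set (MvPolynomial (β ⊕ Fin (M + 1)) ℂ)} (H : FibresCarry B FF) {w : ℕ}
    (b : β → Ω) (z : Fin (M + 1) → E) (hz : z ≠ 0) (hgen : coords Ω z = ⊤)
    (hF : ∀ F ∈ FF, MvPolynomial.eval₂ ((algebraMap Ω E).comp τ.symm.toRingHom)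
      (Sum.elim (fun i => algebraMap Ω E (b i)) z) F = 0) (hw : 2 ≤ w)
    (ht : Algebra.trdeg Ω E = w) : CarriesOver B Ω E := by
  let _ : Algebra ℂ E := ((algebraMap Ω E).comp τ.symm.toRingHom).toAlgebra
  have hmap : ∀ a : ℂ, algebraMap ℂ E a = algebraMap Ω E (τ.symm a) := fun a => rfl
  have hmap' : ∀ a : Ω, algebraMap Ω E a = algebraMap ℂ E (τ a) := fun a => by
    rw [hmap, RingEquiv.symm_apply_apply]
  have hcst : cst E (fun i => τ (b i)) = fun i => algebraMap Ω E (b i) := by
    funext i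
    exact (hmap' _).symm
  have hin : InFibre FF (fun i => τ (b i)) z := by
    intro F hF'
    unfold rv
    rw [hcst, MvPolynomial.aeval_def]
    exact hF F hF'
  have hgen' : coords ℂ z = ⊤ := by
    rw [eq_top_iff]
    intro y _
    have h1 : y ∈ coords Ω z := by
      rw [hgen]
      exact IntermediateField.mem_top
    let F : IntermediateField Ω E :=
      { (coords ℂ z).toSubfield with
        algebraMap_mem' := fun a => by
          rw [hmap']
          exact (coords ℂ z).algebraMap_mem _ }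
    have h2 : coords Ω z ≤ F := by
      unfold Pool.Agent.W602.GT.coords
      rw [IntermediateField.adjoin_le_iff]
      intro g hg
      exact IntermediateField.subset_adjoin ℂ _ hg
    exact h2 h1
  have ht' : Algebra.trdeg ℂ E = w := by
    rw [← ht]
    refine le_antisymm ?_ ?_
    · obtain ⟨s, hs⟩ := exists_isTranscendenceBasis ℂ E
      rw [← hs.cardinalMk_eq_trdeg]
      have h1 : AlgebraicIndependent Ω ((↑) : s → E) :=
        hs.1.of_ringHom_of_comp_eq τ (RingHom.id E) τ.injective (by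
          ext a
          exact (hmap' a).symm)
      exact h1.cardinalMk_le_trdeg
    · obtain ⟨s, hs⟩ := exists_isTranscendenceBasis Ω E
      rw [← hs.cardinalMk_eq_trdeg]
      have h1 : AlgebraicIndependent ℂ ((↑) : s → E) :=
        hs.1.of_ringHom_of_comp_eq τ.symm (RingHom.id E) τ.symm.injective (by
          ext a
          rfl)
      exact h1.cardinalMk_le_trdeg
  obtain ⟨J, hJ, d, p, q, h1, h2, h3, h4, h5⟩ := H _ E w z hz hgen' hin hw ht'
  refine ⟨J, hJ, d, p, q, h1, h2, h3, h4, fun F hF => ?_⟩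
  let F' : IntermediateField ℂ E :=
    { F.toSubfield with
      algebraMap_mem' := fun a => by
        rw [hmap]
        exact F.algebraMap_mem _ }
  have hFF' : ∀ y, y ∈ F' ↔ y ∈ F := fun y => Iff.rfl
  have h6 := h5 F' fun j => by
    obtain ⟨p', q', a, b, c, e, g1, g2, g3, g4, g5⟩ := hF j
    exact ⟨p', q', a, b, c, e, g1, g2, g3, fun i =>
      ⟨(isAlgebraic_iff_of_eq F' F hFF' _).2 (g4 i).1, (isAlgebraic_iff_of_eq F' F hFF' _).2 (g4 i).2⟩,
      g5⟩
  exact ⟨fun y => (isAlgebraic_iff_of_eq F' F hFF' y).1 (h6.isAlgebraic y)⟩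

/-- **From the complex fibres to the geometric fibres.** -/
theorem geom_of_complex {B : ℕ → ℕ} {β : Type} [Finite β] {M : ℕ}
    {FF : Set (MvPolynomial (β ⊕ Fin (M + 1)) ℂ)} (H : FibresCarry B FF)
    (Ω E : Type) [Field Ω] [Field E] [Algebra ℂ Ω] [Algebra Ω E] [Algebra ℂ E]
    [IsScalarTower ℂ Ω E] [IsAlgClosed Ω] (w : ℕ) (b : β → Ω) (z : Fin (M + 1) → E)
    (halg : Algebra.IsAlgebraic (IntermediateField.adjoin ℂ (Set.range b)) Ω) (hz : z ≠ 0)
    (hgen : coords Ω z = ⊤) (hF : ∀ F ∈ FF, rv (fun i => algebraMap Ω E (b i)) z F = 0)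
    (hw : 2 ≤ w) (ht : Algebra.trdeg Ω E = w) : CarriesOver B Ω E := by
  classical
  have := Fintype.ofFinite β
  -- a finite set of equations
  obtain ⟨S, hS, hSF⟩ : ∃ S : Finset (MvPolynomial (β ⊕ Fin (M + 1)) ℂ), (S : Set _) ⊆ FF ∧
      Ideal.span (S : Set (MvPolynomial (β ⊕ Fin (M + 1)) ℂ)) = Ideal.span FF := by
    have h1 : (Ideal.span FF).FG := IsNoetherian.noetherian _
    obtain ⟨S, hS, h2⟩ := Submodule.fg_span_iff_fg_span_finset_subset FF |>.1 h1
    exact ⟨S, hS, h2.symm⟩
  have hSH : FibresCarry B (S : Set (MvPolynomial (β ⊕ Fin (M + 1)) ℂ)) := by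
    intro c E _ _ w z h1 h2 h3 h4 h5
    refine H c E w z h1 h2 (fun F hF => ?_) h4 h5
    have h6 : Ideal.span (S : Set (MvPolynomial (β ⊕ Fin (M + 1)) ℂ)) ≤
        RingHom.ker (MvPolynomial.aeval (Sum.elim (cst E c) z) :
          MvPolynomial (β ⊕ Fin (M + 1)) ℂ →ₐ[ℂ] E) := by
      rw [Ideal.span_le]
      exact fun G hG => h3 G hG
    exact h6 (by rw [hSF]; exact Ideal.subset_span hF)
  -- the field of definition
  obtain ⟨C, hC⟩ : ∃ C : Set ℂ, C = ⋃ F ∈ S, (F.coeffs : Set ℂ) := ⟨_, rfl⟩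
  have hCc : C.Countable := by
    rw [hC]
    exact S.countable_toSet.biUnion fun F _ => Set.to_countable _
  obtain ⟨k, hk⟩ : ∃ k : Subfield ℂ, k = Subfield.closure C := ⟨_, rfl⟩
  have hkc : #k ≤ ℵ₀ := by
    rw [hk]
    exact (Subfield.cardinalMk_closure_le_max _).trans (max_le (Cardinal.le_aleph0_iff_set_countable.2 hCc)
      le_rfl)
  let _ : Algebra k Ω := ((algebraMap ℂ Ω).comp k.subtype).toAlgebra
  obtain ⟨τ, hτ⟩ := exists_iso (R := k) (K := Ω) (L := ℂ) hkc (by
    rw [card_eq b halg, card_complex]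
    exact Cardinal.aleph0_lt_continuum) (card_eq b halg)
  refine transport τ hSH b z hz hgen (fun F hFS => ?_) hw ht
  have h1 := hF F (hS hFS)
  unfold rv at h1
  rw [MvPolynomial.aeval_def] at h1
  rw [← h1]
  rw [MvPolynomial.eval₂_eq, MvPolynomial.eval₂_eq]
  refine Finset.sum_congr rfl fun d hd => ?_
  have h2 : MvPolynomial.coeff d F ∈ k := by
    rw [hk]
    refine Subfield.subset_closure ?_
    rw [hC]
    exact Set.mem_iUnion₂.2 ⟨F, hFS, MvPolynomial.mem_coeffs_iff.2 ⟨d, hd, rfl⟩⟩
  have h3 : τ.symm (MvPolynomial.coeff d F) = algebraMap ℂ Ω (MvPolynomial.coeff d F) := by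
    rw [RingEquiv.symm_apply_eq]
    exact (hτ ⟨_, h2⟩).symm
  have h4 : ((algebraMap Ω E).comp τ.symm.toRingHom) (MvPolynomial.coeff d F) =
      algebraMap ℂ E (MvPolynomial.coeff d F) := by
    change algebraMap Ω E (τ.symm (MvPolynomial.coeff d F)) = _
    rw [h3]
    exact (IsScalarTower.algebraMap_apply ℂ Ω E _).symm
  rw [h4]

end Pool.Agent.J6H55.FM
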