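import Pool.Agent.J6H55.FM.Defs
import Pool.Agent.J6H55.SB.Main
import Pool.Agent.J6H55.QF.Crv
import Pool.Agent.W603.CX.Basic

/-!
# Families: heights of the curves in the fibres, from maps with many preperiodic points
-/

set_option autoImplicit false
set_option linter.overlappingInstances false

namespace Pool.Agent.J6H55.FM

open FF Polynomial
open Pool.Agent.W602.GT (IsForm val coords)
open Pool.Agent.Y216 (OnVar)
open Pool.Agent.W603.LV (canDeg hgt hgt_zero hgt_nonneg)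
open Pool.Agent.W603.PV (pht pht_le hgt_algebraic)
open Pool.Agent.W603.CX (hgt_le_pht)
open Pool.Agent.Q103.RP (IsPt evc evc_coeff evc_hom evc_eval alg_poly spec)
open Pool.Agent.J6H55.QF (Rel hgt_rel)
open Pool.Agent.J6H55.MF
open Pool.Agent.J6H55.SB (joint_cx)

section tot

variable {β : Type} {M : ℕ}

/-- the polynomials `z j₀`, `b i * z j₀`, `z j` -/
noncomputable def tot {n : ℕ} (e : Fin n ≃ β ⊕ Fin (M + 1)) (j₀ : Fin (M + 1)) :
    Fin (n + 1) → MvPolynomial (β ⊕ Fin (M + 1)) ℂ :=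
  Fin.cons (MvPolynomial.X (Sum.inr j₀)) fun s =>
    Sum.elim (fun i => MvPolynomial.X (Sum.inl i) * MvPolynomial.X (Sum.inr j₀))
      (fun j => MvPolynomial.X (Sum.inr j)) (e s)

variable {n : ℕ} {e : Fin n ≃ β ⊕ Fin (M + 1)} {j₀ : Fin (M + 1)}

theorem tot_hom (s : Fin (n + 1)) : MvPolynomial.IsWeightedHomogeneous
    (Sum.elim (fun _ => 0) (fun _ => 1) : β ⊕ Fin (M + 1) → ℕ) (tot e j₀ s) 1 := by
  unfold tot
  refine Fin.cases ?_ (fun s => ?_) s
  · rw [Fin.cons_zero]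
    exact MvPolynomial.isWeightedHomogeneous_X ℂ _ (Sum.inr j₀)
  · rw [Fin.cons_succ]
    rcases e s with i | j
    · have h1 := (MvPolynomial.isWeightedHomogeneous_X ℂ
        (Sum.elim (fun _ => 0) (fun _ => 1) : β ⊕ Fin (M + 1) → ℕ) (Sum.inl i)).mul
        (MvPolynomial.isWeightedHomogeneous_X ℂ
        (Sum.elim (fun _ => 0) (fun _ => 1) : β ⊕ Fin (M + 1) → ℕ) (Sum.inr j₀))
      simpa using h1
    · exact MvPolynomial.isWeightedHomogeneous_X ℂ _ (Sum.inr j)

theorem bind_wh {σ τ : Type} {w : τ → ℕ} {g : σ → MvPolynomial τ ℂ}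
    (hg : ∀ i, MvPolynomial.IsWeightedHomogeneous w (g i) 1) {H : MvPolynomial σ ℂ} {m : ℕ}
    (hH : H.IsHomogeneous m) : MvPolynomial.IsWeightedHomogeneous w (MvPolynomial.bind₁ g H) m := by
  classical
  rw [H.as_sum, map_sum]
  refine Submodule.sum_mem (MvPolynomial.weightedHomogeneousSubmodule ℂ w m) fun d hd => ?_
  rw [MvPolynomial.mem_weightedHomogeneousSubmodule, MvPolynomial.bind₁_monomial]
  have h1 : d.degree = m := by
    have h2 := hH (MvPolynomial.mem_support_iff.1 hd)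
    rw [← h2, Finsupp.weight_apply]
    simp [Finsupp.degree, Finsupp.sum]
  have h3 : MvPolynomial.IsWeightedHomogeneous w (∏ i ∈ d.support, g i ^ d i)
      (∑ i ∈ d.support, d i • 1) :=
    MvPolynomial.IsWeightedHomogeneous.prod _ _ _ fun i _ => (hg i).pow (d i)
  have h4 : (∑ i ∈ d.support, d i • 1) = m := by
    rw [← h1]
    simp [Finsupp.degree]
  rw [h4] at h3
  have h5 := (MvPolynomial.isWeightedHomogeneous_C w (MvPolynomial.coeff d H)).mul h3
  rwa [zero_add] at h5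

theorem tot_rel {H : MvPolynomial (Fin (n + 1)) ℂ} (hH : IsForm H) :
    IsRel (MvPolynomial.bind₁ (tot e j₀) H) := by
  obtain ⟨m, hm⟩ := hH
  exact ⟨m, bind_wh tot_hom hm⟩

/-- the homogeneous coordinates of the total space -/
noncomputable def xt {E : Type} [Field E] [Algebra ℂ E] (e : Fin n ≃ β ⊕ Fin (M + 1))
    (j₀ : Fin (M + 1)) (b : β → E) (z : Fin (M + 1) → E) : Fin (n + 1) → E :=
  fun s => rv b z (tot e j₀ s)

variable {E : Type} [Field E] [Algebra ℂ E] {b : β → E} {z : Fin (M + 1) → E}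

theorem rv_bind (H : MvPolynomial (Fin (n + 1)) ℂ) :
    rv b z (MvPolynomial.bind₁ (tot e j₀) H) = val (xt e j₀ b z) H := by
  unfold rv Pool.Agent.W602.GT.val xt
  rw [MvPolynomial.aeval_bind₁]
  rfl

theorem xt_zero : xt e j₀ b z 0 = z j₀ := by
  unfold xt rv tot
  rw [Fin.cons_zero, MvPolynomial.aeval_X]
  rfl

theorem xt_inl (i : β) : xt e j₀ b z (e.symm (Sum.inl i)).succ = b i * z j₀ := by
  unfold xt rv tot
  rw [Fin.cons_succ, Equiv.apply_symm_apply, Sum.elim_inl, map_mul, MvPolynomial.aeval_X,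
    MvPolynomial.aeval_X]
  rfl

theorem xt_inr (j : Fin (M + 1)) : xt e j₀ b z (e.symm (Sum.inr j)).succ = z j := by
  unfold xt rv tot
  rw [Fin.cons_succ, Equiv.apply_symm_apply, Sum.elim_inr, MvPolynomial.aeval_X]
  rfl

theorem xt_gen (hj : z j₀ ≠ 0) (hg : IsGen b z) : coords ℂ (xt e j₀ b z) = ⊤ := by
  rw [eq_top_iff, ← hg.gen, IntermediateField.adjoin_le_iff]
  rintro y (⟨i, rfl⟩ | ⟨i, j, hj', rfl⟩)
  · refine IntermediateField.subset_adjoin ℂ _ ⟨(e.symm (Sum.inl i)).succ, 0, ?_, ?_⟩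
    · rw [xt_zero]
      exact hj
    · rw [xt_inl, xt_zero, mul_div_cancel_right₀ _ hj]
  · refine IntermediateField.subset_adjoin ℂ _ ⟨(e.symm (Sum.inr i)).succ,
      (e.symm (Sum.inr j)).succ, ?_, ?_⟩
    · rw [xt_inr]
      exact hj'
    · rw [xt_inr, xt_inr]

theorem xt_spec {L : Type} [Field L] [Algebra ℂ L] {b' : β → L} {z' : Fin (M + 1) → L} {c : β → ℂ}
    (h : IsSpec b' z' c z) : IsPt (k := ℂ) (xt e j₀ b' z') (xt e j₀ (cst E c) z) := by
  refine ⟨fun h0 => h.1 ?_, fun G hG hG0 => ?_⟩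
  · funext j
    have h1 := congrFun h0 (e.symm (Sum.inr j)).succ
    rw [xt_inr] at h1
    exact h1
  · rw [← rv_bind] at hG0 ⊢
    exact h.2 _ (tot_rel hG) hG0

end tot

/-- **Heights of the curves in the fibres.** -/
theorem rel_main : ∃ B : ℕ → ℕ, ∀ (γ : Type) [Finite γ] (M : ℕ) (K : Type) [Field K] [Algebra ℂ K]
    (b : γ → K) (z : Fin (M + 1) → K), IsGen b z → RelCarries B b → RelH b z := by
  classical
  obtain ⟨B, hB⟩ := joint_cx
  refine ⟨B, ?_⟩
  rintro γ _ M K _ _ b z hg ⟨J, _, d, p, q, hd, hco, hmax, hmany, hfin⟩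
  have := Fintype.ofFinite γ
  obtain ⟨j₀, hj₀'⟩ := Function.ne_iff.1 hg.ne
  have hj₀ : z j₀ ≠ 0 := hj₀'
  obtain ⟨n, e⟩ : ∃ n : ℕ, Nonempty (Fin n ≃ γ ⊕ Fin (M + 1)) :=
    ⟨_, ⟨(Fintype.equivFin _).symm⟩⟩
  obtain ⟨e⟩ := e
  obtain ⟨x, hx⟩ : ∃ x, x = xt e j₀ b z := ⟨_, rfl⟩
  have hx0 : x 0 ≠ 0 := by
    rw [hx, xt_zero]
    exact hj₀
  have hxne : x ≠ 0 := fun h => hx0 (congrFun h 0)
  have hxgen : coords ℂ x = ⊤ := by
    rw [hx]
    exact xt_gen hj₀ hg
  obtain ⟨E₀, hE₀, -, ⟨N, κ, y, g, τ, hy⟩, h⟩ := hB K n x hxne hxgen J d p q hd hco hmax hmany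
  obtain ⟨-, R₀, hR₀⟩ := h N κ y g τ hy
  obtain ⟨A₀, hA₀⟩ := hR₀.degree
  obtain ⟨l, hl'⟩ := Function.ne_iff.1 hy.ne
  have hl : y l ≠ 0 := hl'
  have hlK : (y l : K) ≠ 0 := fun h0 => hl (Subtype.ext h0)
  -- the coordinates of the base of the joint moduli fibration
  obtain ⟨r, hr⟩ : ∃ r : Fin (N + 1) → K, ∀ s, r s = (y s : K) / (y l : K) := ⟨_, fun _ => rfl⟩
  obtain ⟨m, e'⟩ : ∃ m : ℕ, Nonempty (Fin m ≃ γ ⊕ Fin (N + 1)) :=
    ⟨_, ⟨(Fintype.equivFin _).symm⟩⟩
  obtain ⟨e'⟩ := e'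
  obtain ⟨w, hw⟩ : ∃ w : Fin m → K, ∀ t, w t = Sum.elim b r (e' t) := ⟨_, fun _ => rfl⟩
  have hrange : Set.range w = Set.range b ∪ Set.range r := by
    have h1 : w = Sum.elim b r ∘ e' := funext hw
    rw [h1, e'.surjective.range_comp, Set.Sum.elim_range]
  have hEw : E₀ ≤ IntermediateField.adjoin ℂ (Set.range w) := by
    intro c hc
    have h1 : (⟨c, hc⟩ : E₀) ∈ coords ℂ y := by
      rw [hy.gen]
      exact IntermediateField.mem_top
    have h2 : (coords ℂ y).map E₀.val ≤ IntermediateField.adjoin ℂ (Set.range w) := by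
      unfold Pool.Agent.W602.GT.coords
      rw [IntermediateField.adjoin_map, IntermediateField.adjoin_le_iff]
      rintro _ ⟨_, ⟨i, j, hj, rfl⟩, rfl⟩
      have h3 : ∀ s, r s ∈ IntermediateField.adjoin ℂ (Set.range w) := fun s => by
        rw [hrange]
        exact IntermediateField.subset_adjoin ℂ _ (Or.inr ⟨s, rfl⟩)
      have h4 : E₀.val (y i / y j) = r i / r j := by
        rw [map_div₀, hr, hr, div_div_div_cancel_right₀ hlK]
        rfl
      rw [h4]
      exact div_mem (h3 i) (h3 j)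
    exact h2 ⟨⟨c, hc⟩, h1, rfl⟩
  have halg : Algebra.IsAlgebraic (IntermediateField.adjoin ℂ (Set.range w)) K := by
    refine hfin _ (fun j => definedOver_mono hEw (hE₀.defined j)) fun i => ?_
    rw [hrange]
    exact IntermediateField.subset_adjoin ℂ _ (Or.inl ⟨i, rfl⟩)
  -- relations
  choose f hf1 hf2 using fun s : Fin (n + 1) => alg_poly w (x s / x 0) (halg.isAlgebraic _)
  choose μ hμ using hf1
  obtain ⟨ρ, hρ⟩ : ∃ ρ : Fin (n + 1) → K, ∀ s, ρ s = MvPolynomial.aeval w ((f s).coeff (μ s)) :=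
    ⟨_, fun _ => rfl⟩
  have hρ0 : ∀ s, ρ s ≠ 0 := fun s => by
    rw [hρ, ← evc_coeff]
    exact hμ s
  obtain ⟨R₁, T, hR₁, hR₁x, hCT, hxT, hT⟩ := spec hxgen (j0 := (0 : Fin (n + 1))) hx0
    (C := (Set.range fun s => (ρ s)⁻¹) ∪ Set.range r)
    ((Set.finite_range _).union (Set.finite_range _))
  have hgl : val x (g l) ≠ 0 := by
    rw [hy.val]
    exact mul_ne_zero hy.ne' hlK
  obtain ⟨H, hH⟩ : ∃ H, H = R₀ * (R₁ * g l) := ⟨_, rfl⟩
  have hHf : IsForm H := by
    obtain ⟨a1, h1⟩ := hR₀.form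
    obtain ⟨a2, h2⟩ := hR₁
    rw [hH]
    exact ⟨_, h1.mul (h2.mul (hy.hom l))⟩
  have hmul : ∀ {F : Type} [Field F] [Algebra ℂ F] (v : Fin (n + 1) → F),
      val v H = val v R₀ * (val v R₁ * val v (g l)) := by
    intro F _ _ v
    rw [hH]
    unfold Pool.Agent.W602.GT.val
    rw [map_mul, map_mul]
  obtain ⟨δ, hδ⟩ : ∃ δ : Fin (n + 1) → ℕ, ∀ s, δ s = ∑ i ∈ Finset.range ((f s).natDegree + 1),
    ((f s).coeff i).totalDegree := ⟨_, fun _ => rfl⟩
  refine ⟨MvPolynomial.bind₁ (tot e j₀) H, (∑ j : Fin (M + 1), δ (e.symm (Sum.inr j)).succ) *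
    ((N + 1) * A₀), tot_rel hHf, ?_, ?_⟩
  · rw [rv_bind, ← hx, hmul]
    exact mul_ne_zero hR₀.ne (mul_ne_zero hR₁x hgl)
  intro E _ _ _ c v hv hvR
  obtain ⟨u, hu⟩ : ∃ u, u = xt e j₀ (cst E c) v := ⟨_, rfl⟩
  have hup : IsPt (k := ℂ) x u := by
    rw [hx, hu]
    exact xt_spec hv
  rw [rv_bind, ← hu, hmul] at hvR
  have hu0 := left_ne_zero_of_mul hvR
  have hu1 := left_ne_zero_of_mul (right_ne_zero_of_mul hvR)
  have hul := right_ne_zero_of_mul (right_ne_zero_of_mul hvR)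
  obtain ⟨hun, φ, hφ⟩ := hT E u hup hu1
  have hdeg := hA₀ E u ⟨by
    obtain ⟨j, hj⟩ := Function.ne_iff.1 hup.1
    exact ⟨j, hj⟩, hup.2⟩ hu0
  obtain ⟨G, hG⟩ : ∃ G : ℤ, G = max (canDeg ℂ E) 0 := ⟨_, rfl⟩
  have hG0 : 0 ≤ G := by rw [hG]; exact le_max_right _ _
  rw [← hG] at hdeg ⊢
  -- the normalised coordinates
  let η : Fin (n + 1) → T := fun s => ⟨x s / x 0, hxT s⟩
  have hηφ : ∀ s, φ (η s) = u s / u 0 := fun s => hφ s (hxT s)
  have hrT : ∀ s, r s ∈ T := fun s => hCT (Or.inr ⟨s, rfl⟩)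
  have hbη : ∀ i, b i = (η (e.symm (Sum.inl i)).succ : K) := fun i => by
    change b i = x _ / x 0
    rw [hx, xt_inl, xt_zero, mul_div_cancel_right₀ _ hj₀]
  have hv0 : v j₀ ≠ 0 := by
    rw [hu, xt_zero] at hun
    exact hun
  have hbφ : ∀ i, φ (η (e.symm (Sum.inl i)).succ) = algebraMap ℂ E (c i) := fun i => by
    rw [hηφ, hu, xt_inl, xt_zero, mul_div_cancel_right₀ _ hv0]
    rfl
  let w' : Fin m → T := fun t => Sum.elim (fun i => η (e.symm (Sum.inl i)).succ)
    (fun s => ⟨r s, hrT s⟩) (e' t)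
  have hw' : ∀ t, (w' t : K) = w t := by
    intro t
    rw [hw]
    change ((Sum.elim (fun i => η (e.symm (Sum.inl i)).succ)
      (fun s => (⟨r s, hrT s⟩ : T)) (e' t) : T) : K) = _
    rcases e' t with i | s
    · exact (hbη i).symm
    · rfl
  have hgφ : ∀ s, φ ⟨r s, hrT s⟩ * val u (g l) = val u (g s) := by
    intro s
    have h1 : ∀ i, ((MvPolynomial.aeval η (g i) : T) : K) = val (fun t => x t / x 0) (g i) := by
      intro i
      exact MvPolynomial.comp_aeval_apply η T.val (g i)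
    have h2 : ∀ i, φ (MvPolynomial.aeval η (g i)) = val (fun t => u t / u 0) (g i) := by
      intro i
      have h3 := MvPolynomial.comp_aeval_apply η φ (g i)
      have h4 : (fun t => φ (η t)) = fun t => u t / u 0 := funext hηφ
      rw [h4] at h3
      exact h3
    have h5 : ∀ {F : Type} [Field F] [Algebra ℂ F] (v : Fin (n + 1) → F) (i : Fin (N + 1)),
        v 0 ≠ 0 → val v (g i) = v 0 ^ κ * val (fun t => v t / v 0) (g i) := by
      intro F _ _ v i hv
      rw [← Pool.Agent.W602.GT.val_smul (hy.hom i) (v 0)]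
      congr 1
      funext t
      field_simp
    have h6 : (⟨r s, hrT s⟩ : T) * MvPolynomial.aeval η (g l) = MvPolynomial.aeval η (g s) := by
      apply Subtype.ext
      change r s * ((MvPolynomial.aeval η (g l) : T) : K) = ((MvPolynomial.aeval η (g s) : T) : K)
      rw [h1, h1]
      have h7 := h5 x l hx0
      have h8 := h5 x s hx0
      rw [hy.val] at h7 h8
      have h9 : x 0 ^ κ ≠ 0 := pow_ne_zero _ hx0
      apply mul_left_cancel₀ h9
      rw [hr]
      calc x 0 ^ κ * ((y s : K) / (y l : K) * val (fun t => x t / x 0) (g l)) =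
          (y s : K) / (y l : K) * (x 0 ^ κ * val (fun t => x t / x 0) (g l)) := by ring
        _ = (y s : K) / (y l : K) * (τ * (y l : K)) := by rw [← h7]
        _ = τ * (y s : K) := by field_simp
        _ = _ := h8
    have h7 := congrArg φ h6
    rw [map_mul, h2, h2] at h7
    rw [h5 u l hun, h5 u s hun, ← h7]
    ring
  have hrφ : ∀ s, hgt ℂ (φ ⟨r s, hrT s⟩) ≤ A₀ * G := by
    intro s
    have h1 : φ ⟨r s, hrT s⟩ = val u (g s) / val u (g l) := by
      rw [← hgφ s, mul_div_cancel_right₀ _ hul]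
    by_cases h2 : val u (g s) = 0
    · rw [h1, h2, zero_div, hgt_zero]
      exact mul_nonneg (Int.natCast_nonneg _) hG0
    · rw [h1]
      exact (hgt_le_pht (fun i => val u (g i)) h2 hul).trans hdeg
  have hwφ : ∑ t, hgt ℂ (φ (w' t)) ≤ ((N + 1) * A₀ : ℕ) * G := by
    have h1 : ∑ t, hgt ℂ (φ (w' t)) = ∑ t : γ ⊕ Fin (N + 1), hgt ℂ (φ
        (Sum.elim (fun i => η (e.symm (Sum.inl i)).succ) (fun s => (⟨r s, hrT s⟩ : T)) t)) :=
      e'.sum_comp (fun t => hgt ℂ (φ
        (Sum.elim (fun i => η (e.symm (Sum.inl i)).succ) (fun s => (⟨r s, hrT s⟩ : T)) t)))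
    rw [h1, Fintype.sum_sum_type]
    have h2 : ∑ i : γ, hgt ℂ (φ (Sum.elim (fun i => η (e.symm (Sum.inl i)).succ)
        (fun s => (⟨r s, hrT s⟩ : T)) (Sum.inl i))) = 0 := by
      refine Finset.sum_eq_zero fun i _ => ?_
      rw [Sum.elim_inl, hbφ]
      exact hgt_algebraic (isAlgebraic_algebraMap _)
    rw [h2, zero_add]
    have h3 : ∑ s : Fin (N + 1), hgt ℂ (φ (Sum.elim (fun i => η (e.symm (Sum.inl i)).succ)
        (fun s => (⟨r s, hrT s⟩ : T)) (Sum.inr s))) ≤ ∑ _s : Fin (N + 1), A₀ * G :=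
      Finset.sum_le_sum fun s _ => hrφ s
    refine h3.trans (le_of_eq ?_)
    rw [Finset.sum_const, Finset.card_univ, Fintype.card_fin, nsmul_eq_mul]
    push_cast
    ring
  -- the relations at the point
  have hrel : ∀ s, Rel (f s) (fun t => φ (w' t)) (φ (η s)) := by
    intro s
    have h1 : evc (f s) w = (evc (f s) w').map T.val.toRingHom := by
      rw [evc_hom T.val (f s) w']
      congr 1
      funext t
      exact (hw' t).symm
    refine ⟨fun h0 => ?_, ?_⟩
    · have h2 : (⟨ρ s, ?_⟩ : T) = MvPolynomial.aeval w' ((f s).coeff (μ s)) := ?_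
      rotate_left
      · rw [hρ]
        have h3 := MvPolynomial.comp_aeval_apply w' T.val ((f s).coeff (μ s))
        have h4 : (fun t => T.val (w' t)) = w := funext hw'
        rw [h4] at h3
        rw [← h3]
        exact (MvPolynomial.aeval w' ((f s).coeff (μ s))).2
      · apply Subtype.ext
        change ρ s = _
        rw [hρ]
        have h3 := MvPolynomial.comp_aeval_apply w' T.val ((f s).coeff (μ s))
        have h4 : (fun t => T.val (w' t)) = w := funext hw'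
        rw [h4] at h3
        exact h3.symm
      have h5 : φ (MvPolynomial.aeval w' ((f s).coeff (μ s))) = 0 := by
        have h6 := MvPolynomial.comp_aeval_apply w' φ ((f s).coeff (μ s))
        rw [h6]
        have h7 := congrArg (fun P : E[X] => P.coeff (μ s)) h0
        simp only [coeff_zero] at h7
        rw [evc_coeff] at h7
        exact h7
      have h8 : (⟨(ρ s)⁻¹, hCT (Or.inl ⟨s, rfl⟩)⟩ : T) *
          MvPolynomial.aeval w' ((f s).coeff (μ s)) = 1 := by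
        rw [← h2]
        exact Subtype.ext (inv_mul_cancel₀ (hρ0 s))
      have h9 := congrArg φ h8
      rw [map_mul, h5, mul_zero, map_one] at h9
      exact zero_ne_one h9
    · rw [evc_eval φ (f s) w' (η s)]
      have h2 : (evc (f s) w').eval (η s) = 0 := by
        apply Subtype.ext
        have h3 := eval_map_apply T.val.toRingHom (p := evc (f s) w') (η s)
        have h4 : T.val.toRingHom (η s) = x s / x 0 := rfl
        rw [← h1, h4, hf2 s] at h3
        exact h3.symm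
      rw [h2, map_zero]
  -- conclusion
  have hcoord : ∀ j : Fin (M + 1), v j / v j₀ = φ (η (e.symm (Sum.inr j)).succ) := by
    intro j
    rw [hηφ, hu, xt_inr, xt_zero]
  refine (pht_le (k := ℂ) v hv0).trans ?_
  have h1 : ∀ j : Fin (M + 1), hgt ℂ (v j / v j₀) ≤
      (δ (e.symm (Sum.inr j)).succ : ℤ) * (((N + 1) * A₀ : ℕ) * G) := by
    intro j
    rw [hcoord j]
    have h2 := hgt_rel (κ := ℂ) (f (e.symm (Sum.inr j)).succ) (hrel (e.symm (Sum.inr j)).succ)
    rw [← hδ] at h2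
    exact h2.trans (mul_le_mul_of_nonneg_left hwφ (Int.natCast_nonneg _))
  refine (Finset.sum_le_sum fun j _ => h1 j).trans (le_of_eq ?_)
  rw [← Finset.sum_mul]
  push_cast
  ring

end Pool.Agent.J6H55.FM
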