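import Pool.Agent.J6H55.FM.Defs

/-!
# Project FM: the number of the curves of genus at most one
-/

set_option autoImplicit false
set_option linter.overlappingInstances false

namespace Pool.Agent.J6H55.FM

open FF Polynomial
open Pool.Agent.W602.GT (IsForm val coords)
open Pool.Agent.W603.LV (canDeg)
open Pool.Agent.W603.PV (pht)
open Pool.Agent.Q271.RC (Nonconst)
open Pool.Agent.Q103.SF (van)

/-- The closed curves of genus at most one in the fibre over `c` of the closed subvariety `V` with the generic
point `(b, z)`, not contained in the set `R = 0`, given by the forms which vanish on them. -/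
def lowOff {β : Type} {M : ℕ} {L : Type} [Field L] [Algebra ℂ L] (b : β → L) (z : Fin (M + 1) → L)
    (R : MvPolynomial (β ⊕ Fin (M + 1)) ℂ) (c : β → ℂ) : Set (Set (MvPolynomial (Fin (M + 1)) ℂ)) :=
  {V | ∃ (E : Type) (_ : Field E) (_ : Algebra ℂ E) (_ : IsFF ℂ E) (f : Fin (M + 1) → E),
    IsSpec b z c f ∧ rv (cst E c) f R ≠ 0 ∧ Nonconst f ∧ canDeg ℂ E ≤ 0 ∧ V = van f}

/-- Off a closed subset the number of the curves of genus at most one in the fibres is bounded. -/
def Cnt {β : Type} {M : ℕ} {L : Type} [Field L] [Algebra ℂ L] (b : β → L) (z : Fin (M + 1) → L) :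
    Prop :=
  ∃ (R : MvPolynomial (β ⊕ Fin (M + 1)) ℂ) (A : ℕ), IsRel R ∧ rv b z R ≠ 0 ∧
    ∀ c : β → ℂ, (lowOff b z R c).encard ≤ A

/-- The closed curves of genus at most one in the fibre `X_c`. -/
def lowIn {β : Type} {M : ℕ} (FF : Set (MvPolynomial (β ⊕ Fin (M + 1)) ℂ)) (c : β → ℂ) :
    Set (Set (MvPolynomial (Fin (M + 1)) ℂ)) :=
  {V | ∃ (E : Type) (_ : Field E) (_ : Algebra ℂ E) (_ : IsFF ℂ E) (f : Fin (M + 1) → E),
    InFibre FF c f ∧ Nonconst f ∧ canDeg ℂ E ≤ 0 ∧ V = van f}

/-- (FM-CNT) **Families of curves**: relative dimension at most one; the number of the curves in a fibre.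

Proof. As in `S_one` (`Stm.lean`, FM-ONE): `j₀` with `z j₀ ≠ 0`, `u j = z j / z j₀`, `j₁` such that all `u j` are
algebraic over `ℂ(b)(u j₁)`; `Pool.Agent.Q103.RP.alg_poly` gives polynomials `f j` over `ℂ[b, u j₁]` with
`evc (f j) (b, u j₁) ≠ 0`, root `u j`; `R` is `z j₀` times the homogenised product over `j` of one nonzero
coefficient each of the `f j` (also `j = j₁`; and, if the transcendence degree is zero, relations over `ℂ[b]`).
For a curve `f` in the fibre over `c` with `R(c, f) ≠ 0` let `v j = f j / f j₀`; `v j` is a root of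
`evc (f j) (c, v j₁) ≠ 0`, and `v j₁` is transcendental (otherwise `f` is constant). Let
`Λ = AlgebraicClosure (RatFunc ℂ)`, `t` its variable: `ℂ(v) → Λ`, `v j₁ ↦ t` (`IsAlgClosed.lift`,
`ℂ(v)` is algebraic over `ℂ(v j₁)`), maps `v j` to a root of the nonzero polynomial `evc (f j) (c, t)`, of degree
at most `natDegree (f j)`. So there are at most `∏ j, natDegree (f j)` possible vectors of images, and the vector
determines `van f` (a form `G` vanishes at `f` if and only if it vanishes at `v` if and only if it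
vanishes at the image). (`canDeg ℂ E ≤ 0` is not needed.) -/
def S_cnt : Prop :=
  ∀ (β : Type) [Finite β] (M : ℕ) (L : Type) [Field L] [Algebra ℂ L] (b : β → L)
    (z : Fin (M + 1) → L) (w : ℕ), IsGen b z → w ≤ 1 →
    Algebra.trdeg (IntermediateField.adjoin ℂ (Set.range b)) L = w → Cnt b z

/-- (FM-NO2) **Noetherian induction for the number.**

Proof. As `S_noe` (`Stm.lean`, FM-NOE) and `Pool.Agent.J6H55.CC.alg_all` (`Pool/Agent/J6H55/CC/Gen.lean`), in the
polynomial ring `MvPolynomial (β ⊕ Fin (M + 1)) ℂ`. Statement for an ideal `I`: there is `A` such that for all `c` the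
set of the `V = van f` with `InFibre FF c f`, `Nonconst f`, `canDeg ℂ E ≤ 0` and
`aeval (Sum.elim (cst E c) f) G = 0` for some `f` with this `V` and all `G ∈ I` has at most `A` elements. By the minimal
primes reduce to a prime `p ⊇ I` (finite unions: `Set.encard_union_le`, sums). If all `z`-variables are in `p` the set
is empty. Otherwise let `(b, y)` be the coordinates in `Frac(ℂ[b, z] / p)`, `L = ℂ(b, ratios y)`,
`y = s * z` with `z` over `L` (as in `exists_generic` there, `exists_coords'`): `IsGen b z`, and for `G` with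
`IsRel G`: `rv b z G = 0 ↔ G ∈ p`. If some `F ∈ FF` is not in `p`, use the induction hypothesis for `p + (F)`.
Otherwise the hypothesis gives `R`, `A`; the curves with `R ≠ 0` are at most `A`, for the others use
`p + (R)`. -/
def S_no2 : Prop :=
  ∀ (β : Type) [Finite β] (M : ℕ) (FF : Set (MvPolynomial (β ⊕ Fin (M + 1)) ℂ)), (∀ F ∈ FF, IsRel F) →
    (∀ (L : Type) [Field L] [Algebra ℂ L] (b : β → L) (z : Fin (M + 1) → L), IsGen b z →
      (∀ F ∈ FF, rv b z F = 0) → Cnt b z) →
    ∃ A : ℕ, ∀ c : β → ℂ, (lowIn FF c).encard ≤ A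

end Pool.Agent.J6H55.FM
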