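import Pool.Agent.J6H55.FM.Iso
import Pool.Agent.J6H55.FM.Stm
import Pool.Agent.J6H55.FM.Stm3

/-!
# Families of projective varieties: main theorem
-/

set_option autoImplicit false
set_option linter.overlappingInstances false

namespace Pool.Agent.J6H55.FM

open FF Polynomial
open Pool.Agent.W602.GT (IsForm val coords)
open Pool.Agent.Y216 (OnVar)
open Pool.Agent.Y221.BD (EntireCurve)
open Pool.Agent.W603.LV (canDeg)
open Pool.Agent.W603.PV (pht)
open Pool.Agent.TH466.QG (SubOf)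
open Pool.Agent.Q271.RC (Nonconst)
open Pool.Agent.Q103.EC (HypOff)
open Pool.Agent.Q103.SF
open Pool.Agent.J6H55.CC (Carries)

section

variable {β : Type} {M : ℕ}

theorem RelH.bd {L : Type} [Field L] [Algebra ℂ L] {b : β → L} {z : Fin (M + 1) → L}
    (h : RelH b z) : Bd b z := by
  obtain ⟨R, A, hR, hR0, hA⟩ := h
  refine ⟨R, A, hR, hR0, fun E _ _ _ c f hf hfR hn => Or.inl ?_⟩
  have h1 := hA E c f hf hfR
  have h2 := Pool.Agent.Q96.LS.pht_pos f hn
  have hc : 0 < canDeg ℂ E := by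
    by_contra hcon
    rw [not_lt] at hcon
    rw [max_eq_right hcon, mul_zero] at h1
    linarith
  rwa [max_eq_left hc.le] at h1

theorem RelH.cnt {L : Type} [Field L] [Algebra ℂ L] {b : β → L} {z : Fin (M + 1) → L}
    (h : RelH b z) : Cnt b z := by
  obtain ⟨R, A, hR, hR0, hA⟩ := h
  refine ⟨R, 0, hR, hR0, fun c => ?_⟩
  have h1 : lowOff b z R c = ∅ := by
    rw [Set.eq_empty_iff_forall_notMem]
    rintro V ⟨E, i1, i2, i3, f, hf, hfR, hn, hc, -⟩
    have h1 := hA E c f hf hfR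
    have h2 := Pool.Agent.Q96.LS.pht_pos f hn
    rw [max_eq_right hc, mul_zero] at h1
    linarith
  rw [h1, Set.encard_empty]
  exact bot_le

theorem exists_w [Finite β] {L : Type} [Field L] [Algebra ℂ L] {b : β → L} {z : Fin (M + 1) → L}
    (h : IsGen b z) :
    ∃ w : ℕ, Algebra.trdeg (IntermediateField.adjoin ℂ (Set.range b)) L = w := by
  have := Fintype.ofFinite β
  obtain ⟨j₀, hj₀'⟩ := Function.ne_iff.1 h.ne
  have hj₀ : z j₀ ≠ 0 := hj₀'
  obtain ⟨w, hw⟩ := exists_trdeg_of_gen (xt_gen (e := (Fintype.equivFin (β ⊕ Fin (M + 1))).symm)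
    hj₀ h)
  have h1 := trdeg_add_eq ℂ (IntermediateField.adjoin ℂ (Set.range b)) (A := L)
  have h2 : Algebra.trdeg (IntermediateField.adjoin ℂ (Set.range b)) L < Cardinal.aleph0 := by
    refine lt_of_le_of_lt ?_ (Cardinal.natCast_lt_aleph0 (n := w))
    rw [← hw, ← h1]
    exact self_le_add_left _ _
  exact Cardinal.lt_aleph0.1 h2

end

/-- the bounds for all subvarieties of the family -/
theorem bd_all (hone : S_one) (hcnt : S_cnt) (hcst : S_cst) (hdsc : S_dsc2) {B : ℕ → ℕ}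
    (hB : ∀ (γ : Type) [Finite γ] (M : ℕ) (K : Type) [Field K] [Algebra ℂ K]
      (b : γ → K) (z : Fin (M + 1) → K), IsGen b z → RelCarries B b → RelH b z)
    {β : Type} [Finite β] {M : ℕ} {FF : Set (MvPolynomial (β ⊕ Fin (M + 1)) ℂ)}
    (hFF : ∀ F ∈ FF, IsRel F) (H : FibresCarry B FF) {L : Type} [Field L] [Algebra ℂ L]
    {b : β → L} {z : Fin (M + 1) → L} (hg : IsGen b z) (hz : ∀ F ∈ FF, rv b z F = 0) :
    Bd b z ∧ Cnt b z := by
  obtain ⟨w, hw⟩ := exists_w hg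
  rcases Nat.lt_or_ge w 2 with hw2 | hw2
  · exact ⟨hone β M L b z w hg (by omega) hw, hcnt β M L b z w hg (by omega) hw⟩
  · obtain ⟨K, i1, i2, ι, m, θ, hθ, hK, hc⟩ := hdsc B β M L b z w hg hw
      fun Ω E _ _ _ _ _ _ _ b' z' halg hz' hgen' hG ht =>
        geom_of_complex H Ω E w b' z' halg hz' hgen' (fun F hF => hG F (hFF F hF) (hz F hF)) hw2 ht
    have h := hcst β M m L K ι b z θ hg hθ (hB _ M K _ _ hK hc)
    exact ⟨h.bd, h.cnt⟩

/-- a set whose intersections with irreducible varieties contain open subsets if they are dense, and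
which is closed, is Zariski closed -/
theorem zariski_closed (hden : S_den) {β : Type} [Finite β] {Z : Set (β → ℂ)} (hZ : IsClosed Z)
    (hgen : ∀ (p : Ideal (MvPolynomial β ℂ)) [p.IsPrime],
      (∀ G : MvPolynomial β ℂ, G ∉ p → ∃ c : β → ℂ, (∀ H ∈ p, MvPolynomial.eval c H = 0) ∧
        MvPolynomial.eval c G ≠ 0 ∧ c ∈ Z) →
      ∃ r : MvPolynomial β ℂ, r ∉ p ∧ ∀ c : β → ℂ, (∀ H ∈ p, MvPolynomial.eval c H = 0) →
        MvPolynomial.eval c r ≠ 0 → c ∈ Z) :
    ∃ N : Set (MvPolynomial β ℂ), ∀ c, c ∈ Z ↔ ∀ G ∈ N, MvPolynomial.eval c G = 0 := by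
  classical
  let I : Ideal (MvPolynomial β ℂ) :=
    { carrier := {G | ∀ c ∈ Z, MvPolynomial.eval c G = 0}
      add_mem' := fun {a b} ha hb c hc => by rw [map_add, ha c hc, hb c hc, add_zero]
      zero_mem' := fun c _ => map_zero _
      smul_mem' := fun a b hb c hc => by rw [smul_eq_mul, map_mul, hb c hc, mul_zero] }
  have hI : ∀ G, G ∈ I ↔ ∀ c ∈ Z, MvPolynomial.eval c G = 0 := fun G => Iff.rfl
  refine ⟨I, fun c => ⟨fun hc G hG => hG c hc, fun hc => ?_⟩⟩
  have hfin : I.minimalPrimes.Finite := Ideal.finite_minimalPrimes_of_isNoetherianRing _ I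
  have hker : (RingHom.ker (MvPolynomial.eval c)).IsPrime := RingHom.ker_isPrime _
  obtain ⟨p, hp, hpc⟩ := Ideal.exists_minimalPrimes_le (I := I) (J := RingHom.ker (MvPolynomial.eval c))
    (fun G hG => RingHom.mem_ker.2 (hc G hG))
  have hpp : p.IsPrime := hp.1.1
  -- the other components
  have hH : ∃ H : MvPolynomial β ℂ, H ∉ p ∧ ∀ q ∈ I.minimalPrimes, q ≠ p → H ∈ q := by
    have h1 : ∀ q : Ideal (MvPolynomial β ℂ), ∃ h : MvPolynomial β ℂ, h ∉ p ∧
        (q ∈ I.minimalPrimes → q ≠ p → h ∈ q) := by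
      intro q
      by_cases hq : q ∈ I.minimalPrimes ∧ q ≠ p
      · have h2 : ¬ q ≤ p := fun h => hq.2 (le_antisymm h (hp.2 hq.1.1 h))
        obtain ⟨h, hh, hhp⟩ := SetLike.not_le_iff_exists.1 h2
        exact ⟨h, hhp, fun _ _ => hh⟩
      · refine ⟨1, fun h => hpp.ne_top ((Ideal.eq_top_iff_one p).2 h), fun h1 h2 =>
          absurd ⟨h1, h2⟩ hq⟩
    choose h hhp hhq using h1
    refine ⟨∏ q ∈ hfin.toFinset, h q, fun h0 => ?_, fun q hq hqp => ?_⟩
    · obtain ⟨q, -, hq⟩ := (Ideal.IsPrime.prod_mem_iff (hp := hpp)).1 h0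
      exact hhp q hq
    · rw [← Finset.mul_prod_erase _ _ ((Set.Finite.mem_toFinset hfin).2 hq)]
      exact Ideal.mul_mem_right _ _ (hhq q hq hqp)
  obtain ⟨H, hHp, hHq⟩ := hH
  obtain ⟨r, hr, hrZ⟩ := hgen p fun G hG => by
    by_contra hcon
    push Not at hcon
    have h1 : G * H ∈ I := by
      rw [hI]
      intro c' hc'
      have hker' : (RingHom.ker (MvPolynomial.eval c')).IsPrime := RingHom.ker_isPrime _
      obtain ⟨q, hq, hqc⟩ := Ideal.exists_minimalPrimes_le (I := I)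
        (J := RingHom.ker (MvPolynomial.eval c')) (fun G hG => RingHom.mem_ker.2 (hG c' hc'))
      rw [map_mul]
      by_cases hqp : q = p
      · subst hqp
        by_cases h2 : MvPolynomial.eval c' G = 0
        · rw [h2, zero_mul]
        · exact absurd hc' (hcon c' (fun H hH => RingHom.mem_ker.1 (hqc hH)) h2)
      · rw [RingHom.mem_ker.1 (hqc (hHq q hq hqp)), mul_zero]
    rcases hpp.mem_or_mem (hp.1.2 h1) with h2 | h2
    · exact hG h2
    · exact hHp h2
  have h1 := hden β p r hr c fun G hG => RingHom.mem_ker.1 (hpc hG)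
  refine hZ.closure_subset_iff.2 ?_ h1
  rintro c' ⟨h2, h3⟩
  exact hrZ c' h2 h3

/-- **Main theorem.** -/
theorem main (hden : S_den) (hgen : S_gen) (hclo : S_clo) (hell : S_ell) (hpar : S_par) (hone : S_one)
    (hcnt : S_cnt) (hnoe : S_noe) (hno2 : S_no2) (hcst : S_cst) (hdsc : S_dsc2) :
    ∃ B : ℕ → ℕ, ∀ (β : Type) [Finite β] (M : ℕ) (FF : Set (MvPolynomial (β ⊕ Fin (M + 1)) ℂ)),
      (∀ F ∈ FF, IsRel F) → FibresCarry B FF →
      ∃ (N : Set (MvPolynomial β ℂ)) (A A' : ℕ), ∀ c : β → ℂ,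
        AllSub FF c (fun _ _ _ x => SpecialSets x) ∧ (lowIn FF c).encard ≤ A' ∧
        (∀ (E : Type) [Field E] [Algebra ℂ E] [IsFF ℂ E] (v : Fin (M + 1) → E), Nonconst v →
          InFibre FF c v → pht ℂ v ≤ A * canDeg ℂ E ∨ LowDeg A (van v)) ∧
        List.TFAE [∃ G ∈ N, MvPolynomial.eval c G ≠ 0,
          ∀ (E : Type) [Field E] [Algebra ℂ E] [IsFF ℂ E] (v : Fin (M + 1) → E), Nonconst v →
            InFibre FF c v → pht ℂ v ≤ A * canDeg ℂ E,
          AllSub FF c (fun _ _ _ x => KobayashiHyp x),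
          AllSub FF c (fun _ _ _ x => BrodyHyp x),
          AllSub FF c (fun _ _ _ x => PicardHyp x),
          AllSub FF c (fun _ _ _ x => NoMero x),
          AllSub FF c (fun _ _ _ x => NoElliptic x),
          AllSub FF c (fun _ _ _ x => AlgHyp x),
          AllSub FF c (fun _ _ _ x => AllGeneral x),
          AllSub FF c (fun _ _ _ x => GeomHyp x),
          lowIn FF c = ∅] := by
  classical
  obtain ⟨B1, hB1⟩ := CC.class_main
  obtain ⟨B2, hB2⟩ := rel_main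
  obtain ⟨B3, hB3⟩ := CC.hyp_of_carries
  refine ⟨fun d => max (B1 d) (max (B2 d) (B3 d)), ?_⟩
  intro β _ M FF hFF H
  have H1 : FibresCarry B1 FF := fun c E _ _ w z h1 h2 h3 h4 h5 =>
    carries_mono (fun d => le_max_left _ _) (H c E w z h1 h2 h3 h4 h5)
  have H2 : FibresCarry B2 FF := fun c E _ _ w z h1 h2 h3 h4 h5 =>
    carries_mono (fun d => (le_max_left _ _).trans (le_max_right _ _)) (H c E w z h1 h2 h3 h4 h5)
  have H3 : FibresCarry B3 FF := fun c E _ _ w z h1 h2 h3 h4 h5 =>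
    carries_mono (fun d => (le_max_right _ _).trans (le_max_right _ _)) (H c E w z h1 h2 h3 h4 h5)
  -- the fibres
  have hclass : ∀ (c : β → ℂ) (K : Type) [Field K] [Algebra ℂ K] (x : Fin (M + 1) → K), x ≠ 0 →
      coords ℂ x = ⊤ → InFibre FF c x → SpecialSets x ∧ List.TFAE [KobayashiHyp x, BrodyHyp x,
        PicardHyp x, NoMero x, NoElliptic x, AlgHyp x, AllGeneral x, GeomHyp x,
        lowCurves x = ∅] := by
    intro c K _ _ x hx hxg hin
    exact hB1 K M x hx hxg (Or.inl fun E _ _ w z hz hw ht =>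
      carries_fibre H1 hz.ne hz.gen (inFibre_sub hFF hin hz.spec) hw ht)
  obtain ⟨A, hA⟩ := hnoe β M FF hFF fun L _ _ b z hg hz =>
    (bd_all hone hcnt hcst hdsc hB2 hFF H2 hg hz).1
  obtain ⟨A', hA'⟩ := hno2 β M FF hFF fun L _ _ b z hg hz =>
    (bd_all hone hcnt hcst hdsc hB2 hFF H2 hg hz).2
  obtain ⟨D, hD⟩ := hpar M A
  -- the fibres with entire curves
  have hlow : ∀ c : β → ℂ, ∀ f, FamCurve FF c f → ∃ (L : Type) (_ : Field L) (_ : Algebra ℂ L)
      (_ : IsFF ℂ L) (u : Fin (M + 1) → L), u ≠ 0 ∧ coords ℂ u = ⊤ ∧ canDeg ℂ L ≤ 0 ∧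
        InFibre FF c u ∧ EntireCurve u f := fun c f hf =>
    low_of_curve (fun K _ _ M x => hB3 K M x) hFF H3 hf
  have hnc : ∀ {L : Type} [Field L] [Algebra ℂ L] [IsFF ℂ L] {u : Fin (M + 1) → L}, u ≠ 0 →
      coords ℂ u = ⊤ → Nonconst u := by
    intro L _ _ _ u hu hg
    exact Pool.Agent.Q96.LS.nonconst_of (CC.isGeneric_of hu hg) (by
      rw [IsFF.trdeg (k := ℂ) (K := L)]
      simp)
  have hbad : ∀ c : β → ℂ, ∀ {L : Type} [Field L] [Algebra ℂ L] [IsFF ℂ L] {u : Fin (M + 1) → L},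
      Nonconst u → canDeg ℂ L ≤ 0 → ¬ pht ℂ u ≤ A * canDeg ℂ L := by
    intro c L _ _ _ u hu hc h
    have h1 := Pool.Agent.Q96.LS.pht_pos u hu
    have h2 := mul_nonpos_of_nonneg_of_nonpos (Int.natCast_nonneg A) hc
    linarith
  have hmemv : ∀ c : β → ℂ, ∀ {L L' : Type} [Field L] [Algebra ℂ L] [Field L'] [Algebra ℂ L']
      {u : Fin (M + 1) → L} {v : Fin (M + 1) → L'}, van u = van v → InFibre FF c u →
      InFibre FF c v := by
    intro c L L' _ _ _ _ u v huv hu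
    exact inFibre_sub hFF hu fun G hG h => ((Set.ext_iff.1 huv G).1 ⟨hG, h⟩).2
  have hlowdeg : ∀ c : β → ℂ, ∀ {L : Type} [Field L] [Algebra ℂ L] {u : Fin (M + 1) → L},
      InFibre FF c u → LowDeg A (van u) → EllPar D FF c := by
    rintro c L _ _ u hu ⟨E, i1, i2, i3, z, hz, hzg, hc, hp, hV⟩
    exact hD β FF hFF c E z hz hzg hc hp (hmemv c hV hu)
  have hpar' : ∀ c : β → ℂ, (∃ f, FamCurve FF c f) ↔ EllPar D FF c := by
    intro c
    constructor
    · rintro ⟨f, hf⟩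
      obtain ⟨L, i1, i2, i3, u, hu, hug, hc, hin, -⟩ := hlow c f hf
      rcases hA L c u (hnc hu hug) hin with h | h
      · exact absurd h (hbad c (hnc hu hug) hc)
      · exact hlowdeg c hin h
    · exact hell β M D FF hFF c
  obtain ⟨N, hN⟩ := zariski_closed hden (hclo β M FF hFF) fun p _ hp => by
    obtain ⟨r, hr, h⟩ := hgen β M D FF p fun G hG => by
      obtain ⟨c, h1, h2, h3⟩ := hp G hG
      exact ⟨c, h1, h2, (hpar' c).1 h3⟩
    exact ⟨r, hr, fun c h1 h2 => (hpar' c).2 (h c h1 h2)⟩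
  refine ⟨N, A, A', fun c => ⟨fun K _ _ x hx hg hin => (hclass c K x hx hg hin).1, hA' c,
    fun E _ _ _ v hv hin => hA E c v hv hin, ?_⟩⟩
  have hall : ∀ (P Q : ∀ (K : Type) [Field K] [Algebra ℂ K], (Fin (M + 1) → K) → Prop),
      (∀ (K : Type) [Field K] [Algebra ℂ K] (x : Fin (M + 1) → K), x ≠ 0 → coords ℂ x = ⊤ →
        InFibre FF c x → (P K x → Q K x)) → AllSub FF c P → AllSub FF c Q :=
    fun P Q h hP K _ _ x hx hg hin => h K x hx hg hin (hP K x hx hg hin)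
  have e1 : (∃ G ∈ N, MvPolynomial.eval c G ≠ 0) ↔ ¬ ∃ f, FamCurve FF c f := by
    have h1 := hN c
    rw [Set.mem_ofPred_eq] at h1
    rw [h1]
    push Not
    rfl
  tfae_have 1 → 2 := by
    intro h E _ _ _ v hv hin
    rcases hA E c v hv hin with h1 | h1
    · exact h1
    · exact absurd ((hpar' c).2 (hlowdeg c hin h1)) (e1.1 h)
  tfae_have 2 → 1 := by
    intro h
    refine e1.2 ?_
    rintro ⟨f, hf⟩
    obtain ⟨L, i1, i2, i3, u, hu, hug, hc, hin, -⟩ := hlow c f hf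
    exact hbad c (hnc hu hug) hc (h L u (hnc hu hug) hin)
  tfae_have 1 → 4 := by
    intro h K _ _ x hx hg hin f hf
    exact e1.1 h ⟨f, famCurve_of hFF hin hf⟩
  tfae_have 4 → 1 := by
    intro h
    refine e1.2 ?_
    rintro ⟨f, hf⟩
    obtain ⟨L, i1, i2, i3, u, hu, hug, hc, hin, hent⟩ := hlow c f hf
    exact h L u hu hug hin f hent
  tfae_have 4 → 3 := hall _ _ fun K _ _ x hx hg hin => ((hclass c K x hx hg hin).2.out 1 0).1
  tfae_have 3 → 5 := hall _ _ fun K _ _ x hx hg hin => ((hclass c K x hx hg hin).2.out 0 2).1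
  tfae_have 5 → 6 := hall _ _ fun K _ _ x hx hg hin => ((hclass c K x hx hg hin).2.out 2 3).1
  tfae_have 6 → 7 := hall _ _ fun K _ _ x hx hg hin => ((hclass c K x hx hg hin).2.out 3 4).1
  tfae_have 7 → 8 := hall _ _ fun K _ _ x hx hg hin => ((hclass c K x hx hg hin).2.out 4 5).1
  tfae_have 8 → 9 := hall _ _ fun K _ _ x hx hg hin => ((hclass c K x hx hg hin).2.out 5 6).1
  tfae_have 9 → 10 := hall _ _ fun K _ _ x hx hg hin => ((hclass c K x hx hg hin).2.out 6 7).1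
  tfae_have 10 → 4 := hall _ _ fun K _ _ x hx hg hin => ((hclass c K x hx hg hin).2.out 7 1).1
  tfae_have 1 → 11 := by
    intro h
    rw [Set.eq_empty_iff_forall_notMem]
    rintro V ⟨E, i1, i2, i3, f, hin, hn, hc, -⟩
    rcases hA E c f hn hin with h1 | h1
    · exact hbad c hn hc h1
    · exact absurd ((hpar' c).2 (hlowdeg c hin h1)) (e1.1 h)
  tfae_have 11 → 1 := by
    intro h
    refine e1.2 ?_
    rintro ⟨f, hf⟩
    obtain ⟨L, i1, i2, i3, u, hu, hug, hc, hin, -⟩ := hlow c f hf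
    have h1 : van u ∈ lowIn FF c := ⟨L, i1, i2, i3, u, hin, hnc hu hug, hc, rfl⟩
    rw [h] at h1
    exact h1
  tfae_finish

end Pool.Agent.J6H55.FM
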